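import Pool.Agent.H29C.Stm
import Pool.Agent.H30T.Done
import Pool.Agent.H30T.Adm
import Pool.Agent.H30T.Ell
import Pool.Agent.H30T.Cubic6
import Pool.Agent.N922.PQ.Big5

/-!
# Project ALL, part 3, piece ALLM: the conclusion over all admissible extensions
-/

set_option autoImplicit false
set_option linter.all false

open IsDedekindDomain NumberField Filter Polynomial
open scoped Classical

namespace Pool.Agent.H29C.ALLM

open Pool.Agent.N922.PQ (IsCub Ov exists_cub ff)
open Pool.Agent.R425.G (ng)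
open Pool.Agent.N874.PP (Ev Sq1 U0)
open Pool.Agent.N783.PF (fF SelZero IsGen Dp)
open Pool.Agent.N783.PQ (LocIm)
open Pool.Agent.N874.JM (LocF)
open Pool.Agent.H30EV (curve twist SelmerTrivial ShaTrivial)
open Pool.Agent.H30GR (Sel2)
open Pool.Agent.H30T

theorem cb_eq (a b : ℤ) : cb a b = cubic a b := rfl

/-- no zeros of the twisted cubic -/
theorem tw_ne {a b t : ℤ} (ht : t ≠ 0) (h : ∀ z : ℤ, z ^ 3 + a * z + b ≠ 0) :
    ∀ z : ℤ, z ^ 3 + a * t ^ 2 * z + b * t ^ 3 ≠ 0 := by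
  intro z hz
  -- `z / t` is a rational zero, so an integer
  have htQ : (t : ℚ) ≠ 0 := by exact_mod_cast ht
  have h1 : ((z : ℚ) / t) ^ 3 + a * ((z : ℚ) / t) + b = 0 := by
    have h2 : (z : ℚ) ^ 3 + a * t ^ 2 * z + b * t ^ 3 = 0 := by exact_mod_cast hz
    field_simp
    linear_combination h2
  have hint : IsIntegral ℤ ((z : ℚ) / t) := by
    refine ⟨Polynomial.X ^ 3 + Polynomial.C a * Polynomial.X + Polynomial.C b, by monicity!, ?_⟩
    simp only [Polynomial.eval₂_add, Polynomial.eval₂_mul, Polynomial.eval₂_pow, Polynomial.eval₂_X,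
      Polynomial.eval₂_C]
    simpa using h1
  obtain ⟨y, hy⟩ := IsIntegrallyClosed.isIntegral_iff.1 hint
  rw [← hy] at h1
  refine h y ?_
  have : ((y ^ 3 + a * y + b : ℤ) : ℚ) = 0 := by
    push_cast
    simpa using h1
  exact_mod_cast this

/-- the generator of the twist -/
theorem isGen {L : Type} [Field L] [NumberField L] {a b : ℤ} {θ : L} (h : IsCub a b θ) {t : ℤ}
    (ht : t ≠ 0) : IsGen 1 (fO (cb (a * t ^ 2) (b * t ^ 3))) ((t : L) * θ) where
  mon := fO_mon (cubic_monic _ _)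
  deg := by rw [cb_eq, fO_deg (cubic_monic _ _), cubic_deg]
  root := by
    rw [fF_fO, cb_eq, cubic_map]
    simp only [map_add, map_mul, map_pow, aeval_X, aeval_C]
    have h1 := h.root
    push_cast
    simp only [eq_ratCast, Rat.cast_mul, Rat.cast_pow, Rat.cast_intCast]
    linear_combination (t : L) ^ 3 * h1
  rank := h.rank
  gen x := by
    obtain ⟨r, s, u, hx⟩ := h.gen x
    have htL : (t : L) ≠ 0 := by exact_mod_cast ht
    refine ⟨![r, s / t, u / t ^ 2], ?_⟩
    rw [hx]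
    simp only [Nat.reduceMul, Nat.reduceAdd, Fin.sum_univ_three, Matrix.cons_val_zero,
      Matrix.cons_val_one, Matrix.cons_val, eq_ratCast, Fin.val_zero, Fin.val_one, Fin.val_two]
    push_cast
    field_simp

theorem main (h0 : S_SQ0) (hH : S_HCT) : S_ALLM := by
  intro a b hd hirr hsel t ht M _ _ hM
  have ht0 : t ≠ 0 := ht.pos.ne'
  have hirrQ : Irreducible (ff ℚ a b) := by
    have := cubic_irrQ a b hirr
    rw [cubic_map] at this
    exact this
  obtain ⟨L, iF, iN, θ, hθ, -⟩ := exists_cub hirrQ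
  have hz : Zero a b θ := fun α h1 h2 h3 h4 => h0 a b hd hirr hsel L θ hθ α h1 h2 h3 h4
  have hG := isGen hθ ht0
  have hdt : 4 * (a * t ^ 2) ^ 3 + 27 * (b * t ^ 3) ^ 2 ≠ 0 := by
    have e : 4 * (a * t ^ 2) ^ 3 + 27 * (b * t ^ 3) ^ 2 = t ^ 6 * dd a b := by
      unfold dd
      ring
    rw [e]
    exact mul_ne_zero (pow_ne_zero _ ht0) hd
  have hirrT := cubic_irrQ (a * t ^ 2) (b * t ^ 3) (tw_ne ht0 hirr)
  obtain ⟨f, hf⟩ : ∃ f : ℤ[X], f = cb (a * t ^ 2) (b * t ^ 3) := ⟨_, rfl⟩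
  have hm : f.Monic := by rw [hf]; exact cubic_monic _ _
  have hdeg : f.natDegree = 2 * 1 + 1 := by rw [hf, cb_eq, cubic_deg]
  have hdisc : f.discr ≠ 0 := by
    rw [hf, cb_eq, cubic_discr]
    exact neg_ne_zero.2 hdt
  have hDp : Dp (∅ : Finset ℕ) = 1 := rfl
  have hadm := adm dsc_inv 1 f ∅ 0 le_rfl hm hdeg hdisc (by simp) M (by
    rw [hDp, Nat.cast_one, scaleRoots_one, hf]
    exact hM)
  rw [C_0, add_zero, comp_X] at hadm
  haveI := hM.galois
  obtain ⟨n, hn⟩ := hM.degree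
  rw [← hf] at hG
  obtain ⟨h1, h2⟩ := sel_M (F := ℚ) (L := L) (g := 1) (W := 0) (f := fO f) (θ := (t : L) * θ)
    (S := ∅) (J := ∅) (𝔮 := fun _ => ⊥) (r := fun _ => 0) (P := fun _ => 0)
    a_exq a_csq a_pin a_par a_parq a_ram le_rfl
    (by rw [fF_fO, hf]; exact hirrT) hG (by intro q hq; simp at hq) (by intro q hq; simp at hq)
    (Finset.Subset.refl _) (by
      intro h hne hN hev _ hloc hreal
      refine hH a b L θ hθ hd hz t ht h hne hN (fun 𝔓 h𝔓 => hev 𝔓 ?_ (by intro q hq; simp at hq))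
        ?_ ?_
      · rw [hf]
        exact h𝔓
      · rw [← hf]
        intro w hw
        convert hloc w hw
        exact Subsingleton.elim _ _
      · rw [← hf]
        exact hreal) M hadm hn (by
      intro w _
      refine ⟨1, ?_⟩
      rw [hDp, Nat.cast_one, one_pow])
  rw [hDp, Nat.cast_one, scaleRoots_one, map_fO] at h1 h2
  have h3 := ell M (a * t ^ 2) (b * t ^ 3) hdt (by
    have e : fF (f.map (algebraMap ℤ (𝓞 M))) =
        X ^ 3 + C (((a * t ^ 2 : ℤ)) : M) * X + C (((b * t ^ 3 : ℤ)) : M) := by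
      unfold fF
      rw [Polynomial.map_map, hf]
      unfold cb
      simp [Polynomial.map_add, Polynomial.map_mul, Polynomial.map_pow]
    rw [← e]
    exact h2) (by
    rw [hf] at h1
    exact h1)
  exact h3

end Pool.Agent.H29C.ALLM

namespace Pool.Agent.H29C

theorem t_ALLM (h0 : S_SQ0) (hH : S_HCT) : S_ALLM := ALLM.main h0 hH

end Pool.Agent.H29C
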