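import Pool.Agent.H30T.Defs7
import Pool.Agent.Helper29L.GivenK
import Pool.Agent.Helper29L.Chi3

/-!
# Project ALL (helper29): the curves for which a given number field is admissible
-/

set_option autoImplicit false
set_option linter.all false

open IsDedekindDomain NumberField Filter
open scoped Classical

namespace Pool.Agent.H29C.Adm0

open Pool.Agent.H30T (AdmissibleE SplitsAt RamifiedAt)
open Pool.Agent.H30EV (twist)
open Pool.Agent.Helper29K (InFamily)
open Pool.Agent.Helper29L (hgt given divP_sp)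

theorem not_ram {M : Type} [Field M] [NumberField M] {p : ℕ} (h : SplitsAt M p) :
    ¬ RamifiedAt M p := by
  rintro ⟨w, hw⟩
  exact (h w (Ideal.pow_le_self two_ne_zero hw)).1 hw

/-- The field stays admissible for the twists by products of primes which split completely in it. -/
theorem adm_tw {M : Type} [Field M] [NumberField M] {P : ℤ × ℤ} (h : AdmissibleE M P.1 P.2) {d : ℤ}
    (hd : ∀ p : ℕ, p.Prime → (p : ℤ) ∣ d → SplitsAt M p) :
    AdmissibleE M (twist P d).1 (twist P d).2 := by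
  refine ⟨h.galois, h.degree, h.real, fun p hp h1 => ?_, fun p hp h1 => ?_⟩
  · rcases h1 with h1 | h1
    · exact h.split p hp (Or.inl h1)
    · by_cases hpd : (p : ℤ) ∣ d
      · exact hd p hp hpd
      · refine h.split p hp (Or.inr ?_)
        have e : 4 * (twist P d).1 ^ 3 + 27 * (twist P d).2 ^ 2 =
            d ^ 6 * (4 * P.1 ^ 3 + 27 * P.2 ^ 2) := by
          simp only [twist]
          ring
        rw [e] at h1
        have hco : IsCoprime ((p : ℤ) ^ 2) (d ^ 6) :=
          IsCoprime.pow ((Int.prime_iff_natAbs_prime.2 (by simpa using hp)).coprime_iff_not_dvd.2 hpd)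
        exact hco.dvd_of_dvd_mul_left h1
  · have hpd : ¬ (p : ℤ) ∣ d := fun h2 => not_ram (hd p hp h2) h1
    have h2 := Pool.Agent.Helper29L.Chi.noZero_tw (q := P) (d := d) hp hpd (fun z => h.ram p hp h1 z)
    exact fun z => h2 z

/-- A given field is admissible for a positive proportion of the curves. -/
theorem dens (M : Type) [Field M] [NumberField M] (hgal : IsGalois ℚ M)
    (hdeg : ∃ n : ℕ, Module.finrank ℚ M = 2 ^ n) (hreal : Nonempty (M →+* ℝ)) (htwo : SplitsAt M 2) :
    ∃ c : ℝ, 0 < c ∧ ∀ᶠ T : ℕ in atTop, c * ({p : ℤ × ℤ | hgt p ≤ T}.ncard : ℝ) ≤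
      ({q : ℤ × ℤ | (InFamily q ∧ AdmissibleE M q.1 q.2) ∧ hgt q ≤ T}.ncard : ℝ) := by
  haveI := hgal
  obtain ⟨T₀, hT₀, hram⟩ : ∃ T₀ : Finset ℤ, (∀ P ∈ T₀, Pool.Agent.N922.PQ.IsPr P) ∧
      (∀ p : ℕ, p.Prime → RamifiedAt M p → (p : ℤ) ∈ T₀) := by
    refine ⟨(Pool.Agent.H30GR.ram_fin M).toFinset.image fun p : ℕ => (p : ℤ),
      fun P hP => ?_, fun p hp hr => ?_⟩
    · obtain ⟨p, hp, rfl⟩ := Finset.mem_image.1 hP
      exact Pool.Agent.H30EV.isPr_nat (((Pool.Agent.H30GR.ram_fin M).mem_toFinset).1 hp).1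
    · obtain ⟨w, hw⟩ := hr
      exact Finset.mem_image.2 ⟨p, ((Pool.Agent.H30GR.ram_fin M).mem_toFinset).2
        ⟨hp, w.asIdeal, w.isPrime, hw⟩, rfl⟩
  obtain ⟨γ, g, δ, hG, hgd⟩ := Pool.Agent.N40.PQ.gen M
  exact (given (Fm := fun q => AdmissibleE M q.1 q.2) T₀ hT₀
    (fun q hF hirr => ⟨hgal, hdeg, hreal, fun p hp h1 => by
        rcases h1 with rfl | h1
        · exact htwo
        · exfalso
          have h2 := hF.sqfree (p : ℤ) (by rwa [← sq])
          have h3 := Int.isUnit_iff.1 h2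
          have h4 := hp.one_lt
          omega,
      fun p hp hr => (Pool.Agent.H30EV.mem_irr hp q).1 (hirr p (hram p hp hr))⟩)
    (divP_sp hG hG.ne ∅)).1

end Pool.Agent.H29C.Adm0
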