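import Pool.Agent.Helper29L.Chi2

/-!
# The multiplicities `m_ρ(E)` are zero if the twist has only finitely many points over a field `M`
-/

set_option autoImplicit false
set_option linter.all false

open scoped TensorProduct Classical
open NumberField

namespace Pool.Agent.H29C.Chi4

open Pool.Agent.H30EV (curve twist)
open Pool.Agent.Helper29L.Chi

variable {F : Type} [Field F] [NumberField F] {q : ℤ × ℤ} {d : ℤ} {s : F}

/-- The tensor product of a finite group with the complex numbers is zero. -/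
theorem tensor_zero {N : Type} [AddCommGroup N] [Finite N] (x : ℂ ⊗[ℤ] N) : x = 0 := by
  induction x using TensorProduct.induction_on with
  | zero => rfl
  | tmul z P =>
    have h1 : Nat.card N • P = 0 := by
      have := card_nsmul_eq_zero' (x := P)
      exact this
    have h0 : (Nat.card N : ℂ) ≠ 0 := by
      exact_mod_cast (Nat.card_pos (α := N)).ne'
    have h2 : z ⊗ₜ[ℤ] P = ((Nat.card N : ℂ)⁻¹ * z) ⊗ₜ[ℤ] (Nat.card N • P) := by
      rw [TensorProduct.tmul_smul, TensorProduct.smul_tmul', nsmul_eq_mul, ← mul_assoc,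
        mul_inv_cancel₀ h0, one_mul]
    rw [h2, h1, TensorProduct.tmul_zero]
  | add x y hx hy => rw [hx, hy, add_zero]

/-- **Multiplicity zero.** `φ : k → F`, `s ∈ F`, `s ^ 2 = d`. If the twist of `E` by `d` has only finitely many points
over `k`, then `m_ρ(E) = 0` for all representations `ρ` of `Gal(F/ℚ)` for which all the elements `h` of the group `H`
act as the scalar `χ_d(h)`, where the elements of `F` which are fixed by `H` are in `φ(k)`. -/
theorem mult_zero' {k : Type} [Field k] [CharZero k] (f : k →ₐ[ℚ] F) (H : Subgroup (F ≃ₐ[ℚ] F))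
    (hk : ∀ z : F, (∀ g : H, g.1 z = z) → ∃ z' : k, f z' = z)
    (hq : 4 * q.1 ^ 3 + 27 * q.2 ^ 2 ≠ 0) (hd : d ≠ 0) (hs : s ^ 2 = (d : F))
    (hfin : Finite (Pts k (twist q d))) {V : Type} [AddCommGroup V] [Module ℂ V]
    (ρ : Representation ℂ (F ≃ₐ[ℚ] F) V)
    (hρ : ∀ h ∈ H, ∀ v, ρ h v = (cs s h : ℂ) • v) : mult F q ρ = 0 := by
  have hs0 : s ≠ 0 := by
    rintro rfl
    rw [zero_pow two_ne_zero] at hs
    exact hd (by exact_mod_cast hs.symm)
  have hdF : (d : F) ≠ 0 := by exact_mod_cast hd
  obtain ⟨φ, hφ⟩ : ∃ φ : Pts k (twist q d) →+ Pts F q,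
      φ = (back hq hd hs).comp (incl f (twist q d)) := ⟨_, rfl⟩
  have hdisc : 4 * (twist q d).1 ^ 3 + 27 * (twist q d).2 ^ 2 ≠ 0 := by
    have e : 4 * (twist q d).1 ^ 3 + 27 * (twist q d).2 ^ 2 =
        d ^ 6 * (4 * q.1 ^ 3 + 27 * q.2 ^ 2) := by
      simp only [twist]
      ring
    rw [e]
    exact mul_ne_zero (pow_ne_zero 6 hd) hq
  have hrange : ∀ P : Pts F q, (∀ g : H, act F q g.1 P = cs s g.1 • P) → P ∈ φ.range := by
    intro P hP
    rcases P with _ | ⟨x, y, h⟩
    · exact ⟨0, map_zero φ⟩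
    have h1 := fun g : H => coords hd hs (hP g)
    obtain ⟨x', hx'⟩ := hk x fun g => (h1 g).1
    obtain ⟨y', hy'⟩ := hk (y / s) (by
      intro g
      rw [map_div₀, (h1 g).2, g_s hs g.1]
      have hc : ((cs s g.1 : ℤ) : F) ≠ 0 := by
        have := cs_sq s g.1
        intro h0
        have h3 : cs s g.1 = 0 := by exact_mod_cast h0
        rw [h3] at this
        norm_num at this
      field_simp)
    have hE : y ^ 2 = x ^ 3 + (q.1 : F) * x + (q.2 : F) := eqn_iff.1 h.1
    have hy2 : y = s * f y' := by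
      rw [hy']
      field_simp
    obtain ⟨R, h', hR⟩ := exists_pt f (q := twist q d) hdisc
      (X := (d : k) * x') (Y := (d : k) ^ 2 * y') (by
        apply f.toRingHom.injective
        show f _ = f _
        simp only [twist]
        push_cast
        simp only [map_add, map_mul, map_pow, map_intCast]
        rw [hx']
        have e1 : ((d : F) ^ 2 * f y') ^ 2 = (d : F) ^ 3 * y ^ 2 := by
          rw [hy2, mul_pow s, hs]
          ring
        rw [e1, hE]
        ring)
    refine ⟨R, ?_⟩
    rw [hφ, AddMonoidHom.comp_apply, hR]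
    have e2 : back hq hd hs (WeierstrassCurve.Affine.Point.some (f ((d : k) * x'))
        (f ((d : k) ^ 2 * y')) h' : Pts F (twist q d)) =
        (vr (q := q) hd hs).fn (delta_ne hq hd) (WeierstrassCurve.Affine.Point.some
          (f ((d : k) * x')) (f ((d : k) ^ 2 * y')) h') := rfl
    rw [e2, Pool.Agent.Y700.VR.fn_some]
    have ex : (1 / s) ^ 2 * f ((d : k) * x') + 0 = x := by
      rw [map_mul, map_intCast, hx', ← hs]
      field_simp
      ring
    have ey : (1 / s) ^ 3 * f ((d : k) ^ 2 * y') +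
        (1 / s) ^ 2 * 0 * f ((d : k) * x') + 0 = y := by
      rw [map_mul f (_ ^ 2), map_pow, map_intCast, hy2, ← hs]
      field_simp
      ring
    have key : ∀ (x1 y1 : F) (h1 : ((curveQ q).baseChange F).toAffine.Nonsingular x1 y1),
        x1 = x → y1 = y → (WeierstrassCurve.Affine.Point.some x1 y1 h1 : Pts F q) =
          WeierstrassCurve.Affine.Point.some x y h := by
      rintro x1 y1 h1 rfl rfl
      rfl
    exact key _ _ _ ex ey
  have hz : ∀ w : VE F q, (∀ g : H, gal F q g.1 w = (cs s g.1 : ℂ) • w) → w = 0 := by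
    intro w hw
    have h1 := mem_range (H := H) (M := Pts F q) (N := Pts k (twist q d))
      (fun g => act F q g.1) (fun g h x => act_mul g.1 h.1 x) (fun g => cs s g.1)
      (fun g => cs_sq s g.1) (fun g h => cs_mul hd hs g.1 h.1) φ
      (fun P hP => hrange P hP) w hw
    obtain ⟨t, ht⟩ := h1
    rw [← ht, tensor_zero t, map_zero]
    rfl
  have hsub : Subsingleton (HomG F q ρ) := by
    refine ⟨fun f f' => ?_⟩
    apply Subtype.ext
    have key : ∀ f : HomG F q ρ, (f : V →ₗ[ℂ] VE F q) = 0 := by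
      intro f
      ext v
      rw [LinearMap.zero_apply]
      apply hz
      intro g
      rw [← f.2 g.1 v, hρ g.1 g.2 v, map_smul]
    rw [key f, key f']
  exact rank_subsingleton' ℂ _

/-- The same for the group of the elements which fix `φ(M)`. -/
theorem mult_zero'' [IsGalois ℚ F] {M : Type} [Field M] [NumberField M] (φ : M →ₐ[ℚ] F)
    (hq : 4 * q.1 ^ 3 + 27 * q.2 ^ 2 ≠ 0) (hd : d ≠ 0) (hs : s ^ 2 = (d : F))
    (hfin : Finite (curve M (twist q d)).toAffine.Point) {V : Type} [AddCommGroup V] [Module ℂ V]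
    (ρ : Representation ℂ (F ≃ₐ[ℚ] F) V)
    (hρ : ∀ h : F ≃ₐ[ℚ] F, (∀ x, h (φ x) = φ x) → ∀ v, ρ h v = (cs s h : ℂ) • v) :
    mult F q ρ = 0 := by
  have e : curve M (twist q d) = (curveQ (twist q d)).baseChange M := by
    apply WeierstrassCurve.ext <;> simp [curve, curveQ, WeierstrassCurve.baseChange]
  have hfin' : Finite (Pts M (twist q d)) := by
    have key : ∀ W : WeierstrassCurve M, curve M (twist q d) = W → Finite W.toAffine.Point := by
      rintro W rfl
      exact hfin
    exact key _ e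
  refine mult_zero' φ φ.fieldRange.fixingSubgroup (fun z hz => ?_) hq hd hs hfin' ρ
    (fun h hh v => hρ h (fun x => ?_) v)
  · have h2 : z ∈ IntermediateField.fixedField φ.fieldRange.fixingSubgroup := by
      rw [IntermediateField.mem_fixedField_iff]
      exact fun g hg => hz ⟨g, hg⟩
    rw [IsGalois.fixedField_fixingSubgroup] at h2
    exact h2
  · exact (IntermediateField.mem_fixingSubgroup_iff _ _).1 hh _ ⟨x, rfl⟩

end Pool.Agent.H29C.Chi4
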