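import Pool.Agent.H29C.Stm
import Pool.Agent.H29A.SLOWW
import Pool.Agent.H29A.RAMC
import Pool.Agent.H29A.TWC

/-!
# Project ALL part 3, piece GDC: the local condition at the good primes (helper74)
-/

set_option autoImplicit false
set_option linter.all false

open NumberField IsDedekindDomain WithZero WeierstrassCurve WeierstrassCurve.Affine
open scoped NNReal Classical

namespace Pool.Agent.H29C.GDCP

open Pool.Agent
open Pool.Agent.TH115.GD
open Pool.Agent.Y710.CV (Cond cond1 cond2)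
open Pool.Agent.Y702.G (sh base pts)
open Pool.Agent.R425.G
open Pool.Agent.N922.PQ (IsCub Ov IsPr)
open Pool.Agent.N874.PP (Ev Sq1 U0)
open Pool.Agent.Helper29L
open Pool.Agent.Helper29L.LOW
open Pool.Agent.Helper29L.SZ (VV)
open Pool.Agent.H29A (CondAt S_RAMC t_TWC)

/-- from the shape of the discriminant curve back to `(a, b)` -/
theorem back {A : Type} [Field A] [NumberField A] {a b : ℤ} {θ : A} (h : IsCub a b θ)
    (hds0 : Pool.Agent.N922.PQ.dsc a b ≠ 0) (v : HeightOneSpectrum (𝓞 ℚ)) {z : A}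
    (hc : Cond (v.adicCompletion ℚ) (AlgebraicClosure (v.adicCompletion ℚ)) (sh (Wt a b 1))
      (4 * (1 : ℤ) * θ) z) : CondAt v a b θ z := by
  have h1 : IsSquare (((4 : ℤ) : v.adicCompletion ℚ)) := ⟨2, by norm_num⟩
  refine (t_TWC A a b θ h hds0 v 4 (by norm_num) h1 z).2 ?_
  unfold CondAt
  have e := H29A.SLOWP.VV_eq a b 1
  rw [mul_one] at e
  rw [e]
  have h5 : ((4 : ℤ) : A) * θ = 4 * (1 : ℤ) * θ := by push_cast; ring
  rw [h5]
  exact hc

end Pool.Agent.H29C.GDCP

namespace Pool.Agent.H29C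

open Pool.Agent.TH115.GD
open Pool.Agent.N922.PQ (IsCub Ov)
open Pool.Agent.N874.PP (Ev)
open Pool.Agent.R425.G
open Pool.Agent.Helper29L
open Pool.Agent.Helper29L.LOW
open Pool.Agent.H29A (CondAt S_RAMC t_RAMC)

/-- **Piece GDC.** -/
theorem t_GDC : S_GDC := by
  intro a b L _ _ θ h hds0 v h2 hsq z hz hN hev
  haveI : CharZero (v.adicCompletion ℚ) := algebraRat.charZero _
  haveI : CharZero (AlgebraicClosure (v.adicCompletion ℚ)) := algebraRat.charZero _
  haveI := gal_p v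
  have hds0' : Pool.Agent.N922.PQ.dsc a b ≠ 0 := hds0
  obtain ⟨r, hr⟩ := hN
  have hr' : Algebra.norm ℚ z = r ^ 2 := by rw [hr, sq]
  have hp : (ng v).Prime := ng_prime v
  have hpZ : Prime ((ng v : ℕ) : ℤ) := Nat.prime_iff_prime_int.1 hp
  refine GDCP.back h hds0' v ?_
  by_cases hds : ((ng v : ℕ) : ℤ) ∣ Pool.Agent.N922.PQ.dsc a b
  · have h3 : ng v ≠ 3 := by
      intro h3
      apply hsq
      rw [h3] at hds ⊢
      unfold Pool.Agent.N922.PQ.dsc at hds
      unfold dd
      have h3p : Prime (3 : ℤ) := Int.prime_three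
      have ha : (3 : ℤ) ∣ 4 * a ^ 3 := by
        have e : 4 * a ^ 3 = (4 * a ^ 3 + 27 * b ^ 2) - 3 * (9 * b ^ 2) := by ring
        rw [e]
        exact dvd_sub (by exact_mod_cast hds) (Dvd.intro _ rfl)
      have ha' : (3 : ℤ) ∣ a := by
        rcases h3p.dvd_or_dvd ha with h5 | h5
        · norm_num at h5
        · exact h3p.dvd_of_dvd_pow h5
      obtain ⟨c, rfl⟩ := ha'
      refine ⟨12 * c ^ 3 + 3 * b ^ 2, ?_⟩
      push_cast
      ring
    have h4 : ng v ≠ 4 := by
      intro h4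
      rw [h4] at hp
      exact absurd hp (by decide)
    have h5 : 5 ≤ ng v := by
      have := hp.two_le
      omega
    have h1 : ¬ ((ng v : ℕ) : ℤ) ∣ 1 := hpZ.not_dvd_one
    exact t_RAMC L a b θ h hds0' 1 one_ne_zero v h5 h1 hds hsq z hz ⟨r, hr⟩ hev
  · refine cond_conv _ _ _ _ _ _ (cond_gd (cf_of h one_ne_zero) ?_ v ?_ hz hr' hev)
    · rw [Wt_disc]
      exact mul_ne_zero (mul_ne_zero (by norm_num) (pow_ne_zero 6 one_ne_zero)) hds0'
    · rw [Wt_disc]
      intro hcon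
      have e : (2 * (-16 * 1 ^ 6 * Pool.Agent.N922.PQ.dsc a b) : ℤ) =
        2 ^ 5 * (-Pool.Agent.N922.PQ.dsc a b) := by ring
      rw [e] at hcon
      rcases hpZ.dvd_or_dvd hcon with h5 | h5
      · have h6 := hpZ.dvd_of_dvd_pow h5
        have h7 : ng v ∣ 2 := by exact_mod_cast h6
        exact h2 ((Nat.prime_dvd_prime_iff_eq hp Nat.prime_two).1 h7)
      · rw [dvd_neg] at h5
        exact hds h5

end Pool.Agent.H29C
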