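import Pool.Agent.H29C.Stm
import Pool.Agent.H29A.SQV
import Pool.Agent.H30T.Par
import Pool.Agent.H30T.Adm

/-!
# Project ALL part 3 (helper29), piece HCT (helper3)
-/

set_option autoImplicit false
set_option linter.all false

open IsDedekindDomain NumberField Filter Polynomial
open scoped Classical

namespace Pool.Agent.H29C

open Pool.Agent.N922.PQ (IsCub Ov)
open Pool.Agent.R425.G (ng ng_prime mem_iff ng_span)
open Pool.Agent.N874.PP (Ev Sq1 U0)
open Pool.Agent.N783.PF (fF SelZero IsGen rd)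
open Pool.Agent.N783.PQ (LocIm)
open Pool.Agent.N874.JM (LocF)
open Pool.Agent.H30T (Gd fO dsc_fO fO_mon fO_deg fF_fO ratp)
open Pool.Agent.H29A (CondAt S_TWC S_RAMC)
open Pool.Agent.H29B (PosAt)
open Pool.Agent.Helper29L (cubD)

namespace HCT

theorem cb_monic (A B : ℤ) : (cb A B).Monic := by
  unfold cb
  monicity!

theorem cb_deg (A B : ℤ) : (cb A B).natDegree = 3 := by
  unfold cb
  compute_degree!

theorem cb_discr (A B : ℤ) : (cb A B).discr = -dd A B := by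
  have hd : (cb A B).degree = 3 := by
    rw [degree_eq_natDegree (cb_monic A B).ne_zero, cb_deg]
    rfl
  rw [discr_of_degree_eq_three hd]
  have c0 : (cb A B).coeff 0 = B := by
    unfold cb
    rw [coeff_add, coeff_add, coeff_X_pow, coeff_C_mul, coeff_X, coeff_C]
    norm_num
  have c1 : (cb A B).coeff 1 = A := by
    unfold cb
    rw [coeff_add, coeff_add, coeff_X_pow, coeff_C_mul, coeff_X, coeff_C]
    norm_num
  have c2 : (cb A B).coeff 2 = 0 := by
    unfold cb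
    rw [coeff_add, coeff_add, coeff_X_pow, coeff_C_mul, coeff_X, coeff_C]
    norm_num
  have c3 : (cb A B).coeff 3 = 1 := by
    unfold cb
    rw [coeff_add, coeff_add, coeff_X_pow, coeff_C_mul, coeff_X, coeff_C]
    norm_num
  rw [c0, c1, c2, c3]
  unfold dd
  ring

theorem isGen {a b : ℤ} {L : Type} [Field L] [NumberField L] {θ : L} (h : IsCub a b θ) :
    IsGen (F := ℚ) 1 (fO (cb a b)) θ where
  mon := fO_mon (cb_monic a b)
  deg := by rw [fO_deg (cb_monic a b), cb_deg]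
  root := by
    rw [fF_fO]
    have h1 := h.root
    simp only [cb, Polynomial.map_add, Polynomial.map_mul, Polynomial.map_pow, map_X, map_C,
      map_add, map_mul, map_pow, aeval_X, aeval_C, Int.coe_castRingHom]
    simp only [map_intCast]
    exact h1
  rank := h.rank
  gen x := by
    obtain ⟨r, s, t, rfl⟩ := h.gen x
    refine ⟨![r, s, t], ?_⟩
    show _ = ∑ i : Fin 3, algebraMap ℚ L ((![r, s, t] : Fin 3 → ℚ) i) * θ ^ (i : ℕ)
    rw [Fin.sum_univ_three]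
    simp

theorem pk (w : HeightOneSpectrum (𝓞 ℚ)) (k : ℕ) (n : ℤ) :
    (n : 𝓞 ℚ) ∈ w.asIdeal ^ k ↔ ((ng w : ℕ) : ℤ) ^ k ∣ n := by
  obtain ⟨p, hp, hvp, hpk⟩ := ratp w
  have h0 : p = ng w := by
    have h1 := (hpk 1 ((ng w : ℕ) : ℤ)).1 (by rw [pow_one]; exact (mem_iff w _).2 dvd_rfl)
    rw [pow_one] at h1
    have h2 : p ∣ ng w := by exact_mod_cast h1
    exact (Nat.prime_dvd_prime_iff_eq hp (ng_prime w)).1 h2
  rw [← h0]
  exact hpk k n

theorem gd_iff (A B : ℤ) (w : HeightOneSpectrum (𝓞 ℚ)) :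
    Gd 1 (fO (cb A B)) w ↔ ng w ≠ 2 ∧ ¬ ((ng w : ℕ) : ℤ) ^ 2 ∣ dd A B := by
  obtain ⟨ε, hε, hd⟩ := dsc_fO (g := 1) le_rfl (cb_monic A B) (cb_deg A B)
  unfold Gd
  rw [hd, pk, cb_discr]
  have h2 : (2 : 𝓞 ℚ) ∈ w.asIdeal ↔ ng w = 2 := by
    have h3 := mem_iff w 2
    rw [Int.cast_ofNat] at h3
    rw [h3]
    constructor
    · intro h4
      have h5 : ng w ∣ 2 := by exact_mod_cast h4
      exact (Nat.prime_dvd_prime_iff_eq (ng_prime w) Nat.prime_two).1 h5
    · intro h4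
      rw [h4]
      exact dvd_rfl
  rw [h2]
  rcases hε with rfl | rfl
  · rw [one_mul, dvd_neg]
  · rw [neg_one_mul, neg_neg]

theorem sq_at (p : ℕ) [hp : Fact p.Prime] (t z : ℤ)
    (h : (p = 2 ∧ t % 8 = 1) ∨ (p ≠ 2 ∧ (p : ℤ) ∣ z ^ 2 - t ∧ ¬ (p : ℤ) ∣ t)) :
    ∃ δ : ℚ_[p], δ * δ = (t : ℚ_[p]) := by
  obtain ⟨F, hF⟩ : ∃ F : ℤ[X], F = X ^ 2 - C t := ⟨_, rfl⟩
  have h1 : ∀ z : ℤ, F.aeval (z : ℤ_[p]) = ((z ^ 2 - t : ℤ) : ℤ_[p]) := by
    intro z
    rw [hF, map_sub, map_pow, aeval_X, aeval_C]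
    simp
  have h2' : ∀ z : ℤ, F.derivative.aeval (z : ℤ_[p]) = ((2 * z : ℤ) : ℤ_[p]) := by
    intro z
    rw [hF]
    simp only [derivative_sub, derivative_X_pow, derivative_C, sub_zero, map_mul, aeval_C, map_pow,
      aeval_X]
    simp
  obtain ⟨z₀, h3⟩ : ∃ z₀ : ℤ, ‖F.aeval (z₀ : ℤ_[p])‖ < ‖F.derivative.aeval (z₀ : ℤ_[p])‖ ^ 2 := by
    rcases h with ⟨h2, h8⟩ | ⟨h2, hz, ht⟩
    · subst h2
      refine ⟨1, ?_⟩
      have hn2 : ‖(2 : ℤ_[2])‖ = 2⁻¹ := by
        have := PadicInt.norm_p (p := 2)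
        push_cast at this
        exact this
      rw [h1, h2']
      have e2 : (((2 * 1 : ℤ)) : ℤ_[2]) = 2 := by norm_num
      rw [e2, hn2]
      have h4 : ‖((1 ^ 2 - t : ℤ) : ℤ_[2])‖ ≤ ((2 : ℕ) : ℝ) ^ (-((3 : ℕ) : ℤ)) := by
        rw [PadicInt.norm_int_le_pow_iff_dvd]
        push_cast
        omega
      refine h4.trans_lt ?_
      norm_num
    · refine ⟨z, ?_⟩
      have hpz : Prime (p : ℤ) := Nat.prime_iff_prime_int.1 hp.out
      have hn : ‖((2 * z : ℤ) : ℤ_[p])‖ = 1 := by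
        refine le_antisymm (PadicInt.norm_le_one _) (not_lt.1 ?_)
        rw [PadicInt.norm_intCast_lt_one_iff]
        intro h
        rcases hpz.dvd_or_dvd h with h | h
        · have h5 : p ∣ 2 := by exact_mod_cast h
          exact h2 ((Nat.prime_dvd_prime_iff_eq hp.out Nat.prime_two).1 h5)
        · apply ht
          have h6 : (p : ℤ) ∣ z ^ 2 := dvd_pow h two_ne_zero
          have h7 := dvd_sub h6 hz
          rwa [sub_sub_cancel] at h7
      rw [h1, h2', hn, one_pow, PadicInt.norm_intCast_lt_one_iff]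
      exact hz
  obtain ⟨y, hy, -⟩ := hensels_lemma h3
  refine ⟨(y : ℚ_[p]), ?_⟩
  rw [hF, map_sub, map_pow, aeval_X, aeval_C, sub_eq_zero] at hy
  have h5 := congrArg (fun x : ℤ_[p] => (x : ℚ_[p])) hy
  rw [← sq]
  simpa using h5

/-- a cubic without zeros modulo `p` has a discriminant prime to `p` -/
theorem not_dvd {a b : ℤ} {p : ℕ} (hp : p.Prime) (h : ∀ z : ℤ, ¬ (p : ℤ) ∣ z ^ 3 + a * z + b)
    (h2 : p ≠ 2) : ¬ (p : ℤ) ∣ dd a b := by
  intro hd
  have hpz : Prime (p : ℤ) := Nat.prime_iff_prime_int.1 hp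
  unfold dd at hd
  by_cases ha : (p : ℤ) ∣ a
  · have h1 : (p : ℤ) ∣ 27 * b ^ 2 := by
      have h3 : (p : ℤ) ∣ 4 * a ^ 3 := Dvd.dvd.mul_left (dvd_pow ha three_ne_zero) _
      exact (dvd_add_right h3).1 hd
    rcases hpz.dvd_or_dvd h1 with h3 | h3
    · have h4 : p ∣ 3 ^ 3 := by
        have : (p : ℤ) ∣ ((3 ^ 3 : ℕ) : ℤ) := by
          norm_num
          exact h3
        exact_mod_cast this
      have h5 : p = 3 := (Nat.prime_dvd_prime_iff_eq hp Nat.prime_three).1 (hp.dvd_of_dvd_pow h4)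
      subst h5
      apply h (-b)
      have h6 : ((3 : ℕ) : ℤ) ∣ b ^ 3 - b := by
        have : ∀ x : ZMod 3, x ^ 3 - x = 0 := by decide
        have h7 := this (b : ZMod 3)
        rw [← ZMod.intCast_zmod_eq_zero_iff_dvd]
        push_cast
        exact h7
      have e : (-b) ^ 3 + a * (-b) + b = -(b ^ 3 - b) - a * b := by ring
      rw [e]
      exact dvd_sub (dvd_neg.2 h6) (Dvd.dvd.mul_right ha b)
    · have h4 := hpz.dvd_of_dvd_pow h3
      apply h 0
      simpa using h4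
  · have hcop : IsCoprime a (p : ℤ) := ((Prime.coprime_iff_not_dvd hpz).2 ha).symm
    obtain ⟨u, v, huv⟩ := hcop
    apply h (3 * b * u)
    have h3 : (p : ℤ) ∣ a ^ 3 * ((3 * b * u) ^ 3 + a * (3 * b * u) + b) := by
      obtain ⟨k, hk⟩ := hd
      refine ⟨b * k + (-(3 * b * v)) * ((a * (3 * b * u)) ^ 2 + 3 * b * (a * (3 * b * u)) +
        9 * b ^ 2) + a ^ 3 * (-(3 * b * v)), ?_⟩
      have e1 : a * (3 * b * u) = 3 * b - 3 * b * v * p := by linear_combination (3 * b) * huv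
      have e2 : a ^ 3 * ((3 * b * u) ^ 3 + a * (3 * b * u) + b) =
          (a * (3 * b * u)) ^ 3 + a ^ 3 * (a * (3 * b * u)) + a ^ 3 * b := by ring
      rw [e2, e1]
      linear_combination b * hk
    rcases hpz.dvd_or_dvd h3 with h4 | h4
    · exact absurd (hpz.dvd_of_dvd_pow h4) ha
    · exact h4

/-- the cubic is irreducible modulo `p` -/
theorem irr_mod {a b : ℤ} {p : ℕ} (hp : p.Prime) (h : ∀ z : ℤ, ¬ (p : ℤ) ∣ z ^ 3 + a * z + b) :
    Irreducible ((cb a b).map (Int.castRingHom (ZMod p))) := by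
  haveI : Fact p.Prime := ⟨hp⟩
  have hm : ((cb a b).map (Int.castRingHom (ZMod p))).Monic := (cb_monic a b).map _
  have hdg : ((cb a b).map (Int.castRingHom (ZMod p))).natDegree = 3 := by
    rw [(cb_monic a b).natDegree_map, cb_deg]
  rw [hm.irreducible_iff_roots_eq_zero_of_degree_le_three (by rw [hdg]; norm_num)
    (by rw [hdg])]
  rw [Multiset.eq_zero_iff_forall_notMem]
  intro x hx
  rw [mem_roots hm.ne_zero, IsRoot.def] at hx
  obtain ⟨z, rfl⟩ := ZMod.intCast_surjective x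
  apply h z
  rw [← ZMod.intCast_zmod_eq_zero_iff_dvd]
  rw [← hx]
  simp only [cb, Polynomial.map_add, Polynomial.map_mul, Polynomial.map_pow, map_X, map_C,
    eval_add, eval_mul, eval_pow, eval_X, eval_C, Int.coe_castRingHom]
  push_cast
  ring

end HCT

open HCT

theorem t_HCT (hP : S_LFP) (hR : S_LFR) (hG : S_GDC) (hT : S_TWC) : S_HCT := by
  intro a b L _ _ θ h hdd hZ t ht g hα hn hev hloc hreal
  have ht0 : t ≠ 0 := ht.pos.ne'
  have htw : IsCub (a * t ^ 2) (b * t ^ 3) ((t : L) * θ) := cubD h ht0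
  have hddt : dd (a * t ^ 2) (b * t ^ 3) = t ^ 6 * dd a b := by unfold dd; ring
  have hdd' : dd (a * t ^ 2) (b * t ^ 3) ≠ 0 := by
    rw [hddt]
    exact mul_ne_zero (pow_ne_zero 6 ht0) hdd
  refine hZ _ hα hn ?_ ?_
  · intro v
    have hp := ng_prime v
    have hpz : Prime ((ng v : ℕ) : ℤ) := Nat.prime_iff_prime_int.1 hp
    haveI : Fact (ng v).Prime := ⟨hp⟩
    by_cases hpt : ((ng v : ℕ) : ℤ) ∣ t
    · have h2 : ng v ≠ 2 := by
        intro h2
        have h8 := ht.m8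
        rw [h2] at hpt
        obtain ⟨k, hk⟩ := hpt
        push_cast at hk
        omega
      have hnd := not_dvd hp (ht.noz _ hp hpt) h2
      have hsq : ¬ ((ng v : ℕ) : ℤ) ^ 2 ∣ dd a b := fun h3 =>
        hnd ((dvd_pow_self _ two_ne_zero).trans h3)
      refine hG a b L θ h hdd v h2 hsq _ hα hn fun 𝔓 h𝔓 => ?_
      refine Pool.Agent.H30T.Par.pin 1 ℚ L (fO (cb a b)) θ (isGen h) v.asIdeal v.isPrime v.ne_bot
        ((Pool.Agent.H30T.AdmP.irr_residue v (ng v) (ng_span v) (cb a b)).2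
          (irr_mod hp (ht.noz _ hp hpt))) _ hα hn 𝔓 ?_
      intro x hx
      rw [ng_span v, Ideal.mem_span_singleton] at hx
      obtain ⟨c, rfl⟩ := hx
      rw [map_mul, map_natCast]
      have h3 : (((ng v : ℕ) : ℤ) : 𝓞 L) ∈ 𝔓.asIdeal := h𝔓
      rw [Int.cast_natCast] at h3
      exact Ideal.mul_mem_right _ _ h3
    by_cases hbad : ng v = 2 ∨ ((ng v : ℕ) : ℤ) ^ 2 ∣ dd a b
    · have hnG : ¬ Gd 1 (fO (cb (a * t ^ 2) (b * t ^ 3))) v := by
        rw [gd_iff, hddt]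
        rintro ⟨h3, h4⟩
        rcases hbad with h5 | h5
        · exact h3 h5
        · exact h4 (Dvd.dvd.mul_left h5 _)
      have h1 := hP (a * t ^ 2) (b * t ^ 3) L ((t : L) * θ) htw hdd' g hα hn v (hloc v hnG)
      have hsq : IsSquare (((t : ℤ) : v.adicCompletion ℚ)) := by
        obtain ⟨j⟩ := Pool.Agent.H29A.SQV.exists_j v
        obtain ⟨z, hz⟩ : ∃ z : ℤ, (ng v = 2 ∧ t % 8 = 1) ∨
            (ng v ≠ 2 ∧ ((ng v : ℕ) : ℤ) ∣ z ^ 2 - t ∧ ¬ ((ng v : ℕ) : ℤ) ∣ t) := by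
          by_cases h2 : ng v = 2
          · exact ⟨0, Or.inl ⟨h2, ht.m8⟩⟩
          · obtain ⟨z, hz⟩ := ht.sq _ hp (hbad.resolve_left h2)
            exact ⟨z, Or.inr ⟨h2, hz, hpt⟩⟩
        obtain ⟨δ, hδ⟩ := sq_at (ng v) t z hz
        refine ⟨j δ, ?_⟩
        rw [← map_mul, hδ, map_intCast]
      exact (hT L a b θ h hdd v t ht0 hsq _).2 h1
    · push Not at hbad
      refine hG a b L θ h hdd v hbad.1 hbad.2 _ hα hn fun 𝔓 h𝔓 => hev 𝔓 fun w hw => ?_
      have hwv : ng w = ng v := by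
        have h3 : (((ng v : ℕ) : ℤ) : 𝓞 L) ∈ 𝔓.asIdeal := h𝔓
        have h4 : algebraMap (𝓞 ℚ) (𝓞 L) (((ng w : ℕ) : ℤ) : 𝓞 ℚ) ∈ 𝔓.asIdeal :=
          hw _ ((mem_iff w _).2 dvd_rfl)
        rw [map_intCast] at h4
        by_contra hne
        have hcop : IsCoprime ((ng w : ℕ) : ℤ) ((ng v : ℕ) : ℤ) :=
          Nat.isCoprime_iff_coprime.2 ((Nat.coprime_primes (ng_prime w) hp).2 hne)
        obtain ⟨x, y, hxy⟩ := hcop
        apply 𝔓.isPrime.ne_top
        rw [Ideal.eq_top_iff_one]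
        have h5 : ((1 : ℤ) : 𝓞 L) ∈ 𝔓.asIdeal := by
          rw [← hxy]
          push_cast
          refine Ideal.add_mem _ (Ideal.mul_mem_left _ _ ?_) (Ideal.mul_mem_left _ _ ?_)
          · exact_mod_cast h4
          · exact_mod_cast h3
        simpa using h5
      rw [gd_iff, hwv, hddt]
      refine ⟨hbad.1, fun h3 => hbad.2 ?_⟩
      have hcop : IsCoprime (((ng v : ℕ) : ℤ) ^ 2) (t ^ 6) :=
        IsCoprime.pow ((Prime.coprime_iff_not_dvd hpz).2 hpt)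
      exact hcop.dvd_of_dvd_mul_left h3
  · intro φ hφ
    have h1 := hR (a * t ^ 2) (b * t ^ 3) L ((t : L) * θ) htw hdd' g hα (Rat.castHom ℝ)
      (hreal (Rat.castHom ℝ))
    refine h1 φ fun ψ => ?_
    rw [map_mul, map_mul, map_intCast, map_intCast]
    have h2 : (0 : ℝ) < ((t : ℤ) : ℝ) := by exact_mod_cast ht.pos
    exact mul_le_mul_of_nonneg_left (hφ ψ) h2.le

end Pool.Agent.H29C
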