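import Pool.Agent.H29C.Stm
import Pool.Agent.H29A.MUL

/-!
# Project ALL, part 3, piece LFP (helper72): from a divisor to a point (reduction of divisors)
-/

set_option autoImplicit false
set_option linter.all false

open IsDedekindDomain NumberField WeierstrassCurve WeierstrassCurve.Affine Polynomial
open scoped Classical

namespace Pool.Agent.H29C.LFP

open Pool.Agent.TH115.GD
open Pool.Agent.R425.G
open Pool.Agent.Y710.CV (Cond)
open Pool.Agent.N922.PQ (IsCub)
open Pool.Agent.Helper29L.SZ (VV cub_VV iv_VV)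

/-- fixed by the stabiliser of `e` -/
def FX (F : Type) {Ω : Type} [Field F] [Field Ω] [Algebra F Ω] (e w : Ω) : Prop :=
  ∀ σ : Ω ≃ₐ[F] Ω, σ e = e → σ w = w

section fx

variable {F Ω : Type} [Field F] [Field Ω] [Algebra F Ω] {e x y : Ω}

theorem FX.mul (hx : FX F e x) (hy : FX F e y) : FX F e (x * y) := fun σ h => by
  rw [map_mul, hx σ h, hy σ h]

theorem FX.div (hx : FX F e x) (hy : FX F e y) : FX F e (x / y) := fun σ h => by
  rw [map_div₀, hx σ h, hy σ h]

theorem FX.base (c : F) : FX F e (algebraMap F Ω c) := fun σ _ => σ.commutes c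

theorem FX.aev (p : F[X]) : FX F e (aeval e p) := fun σ h => by
  rw [← Polynomial.aeval_algHom_apply, h]

theorem FX.pow (hx : FX F e x) (n : ℕ) : FX F e (x ^ n) := fun σ h => by
  rw [map_pow, hx σ h]

/-- the class of the divisor `(u, v)`, `v ^ 2 - f = u * q`, at the root `e` -/
noncomputable def Mf (u q : F[X]) (e : Ω) : Ω :=
  (-1) ^ u.natDegree * (if aeval e u = 0 then aeval e q else aeval e u)

theorem FX.Mf (u q : F[X]) : FX F e (Mf u q e) := by
  unfold LFP.Mf
  apply FX.mul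
  · have : ((-1 : Ω)) ^ u.natDegree = algebraMap F Ω ((-1) ^ u.natDegree) := by simp
    rw [this]
    exact FX.base _
  · split_ifs
    · exact FX.aev q
    · exact FX.aev u

end fx

section gen

variable {V : WeierstrassCurve ℚ} {F Ω : Type} [Field F] [Field Ω] [Algebra F Ω] [Algebra ℚ F]
  [Algebra ℚ Ω] [IsScalarTower ℚ F Ω]

/-- the classes of points -/
def PC (V : WeierstrassCurve ℚ) (F : Type) {Ω : Type} [Field F] [Field Ω] [Algebra F Ω]
    [Algebra ℚ F] [Algebra ℚ Ω] [IsScalarTower ℚ F Ω] (z : Ω → Ω) : Prop :=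
  ∃ P : Pt V F, ∀ e : Rt V Ω, ∃ w : Ω, w ≠ 0 ∧ FX F e.1 w ∧ z e.1 * kpf P e = w ^ 2

theorem FX_kpf (P : Pt V F) (e : Rt V Ω) : FX F e.1 (kpf P e) := fun σ h => by
  have hmv : mv σ e = e := Subtype.ext h
  rw [kpf_equi, hmv]

theorem PC_mul [IsSepClosed Ω] [IsGalois F Ω] {a b c : Ω}
    (hC : IsC (V.baseChange Ω).toAffine a b c) {z z' : Ω → Ω} (h : PC V F z) (h' : PC V F z') :
    PC V F (fun e => z e * z' e) := by
  obtain ⟨P, hP⟩ := h
  obtain ⟨P', hP'⟩ := h'
  obtain ⟨η, hη⟩ := kp_mul hC P P'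
  refine ⟨P + P', fun e => ?_⟩
  obtain ⟨w, hw0, hw1, hw2⟩ := hP e
  obtain ⟨w', hw0', hw1', hw2'⟩ := hP' e
  refine ⟨w * w' * (η.1 e : Ω), mul_ne_zero (mul_ne_zero hw0 hw0') (η.1 e).ne_zero,
    (hw1.mul hw1').mul fun σ hσ => ?_, ?_⟩
  · have hmv : mv σ e = e := Subtype.ext hσ
    rw [equi, hmv]
  · have h2 : kpf (P + P') e = kpf P e * kpf P' e * (η.1 e : Ω) ^ 2 :=
      congrArg (fun z : EE V F Ω => (z.1 e : Ω)) hη
    simp only
    rw [h2]
    have : z e.1 * z' e.1 * (kpf P e * kpf P' e * (η.1 e : Ω) ^ 2) =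
      (z e.1 * kpf P e) * (z' e.1 * kpf P' e) * (η.1 e : Ω) ^ 2 := by ring
    rw [this, hw2, hw2']
    ring

theorem PC_one : PC V F (fun _ : Ω => (1 : Ω)) := by
  refine ⟨0, fun e => ⟨1, one_ne_zero, fun σ _ => map_one σ, ?_⟩⟩
  have h1 : kpf (0 : Pt V F) e = 1 := rfl
  simp only
  rw [h1]
  ring

theorem PC_congr {z z' : Ω → Ω} (h : ∀ e : Rt V Ω, z e.1 = z' e.1) (hz : PC V F z) : PC V F z' := by
  obtain ⟨P, hP⟩ := hz
  refine ⟨P, fun e => ?_⟩
  obtain ⟨w, h1, h2, h3⟩ := hP e
  exact ⟨w, h1, h2, by rw [← h e, h3]⟩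

/-- change by squares -/
theorem PC_sq {z z' : Ω → Ω} (h : ∀ e : Rt V Ω, FX F e.1 (z e.1) ∧ z e.1 ≠ 0 ∧
      ∃ w : Ω, w ≠ 0 ∧ FX F e.1 w ∧ z e.1 * z' e.1 = w ^ 2)
    (hz : PC V F z) : PC V F z' := by
  obtain ⟨P, hP⟩ := hz
  refine ⟨P, fun e => ?_⟩
  obtain ⟨w, h1, h2, h3⟩ := hP e
  obtain ⟨k1, k2, w', k3, k4, k5⟩ := h e
  refine ⟨w * w' / z e.1, div_ne_zero (mul_ne_zero h1 k3) k2, (h2.mul k4).div k1, ?_⟩
  rw [div_pow, mul_pow, ← h3, ← k5]
  field_simp

end gen

section main

variable {a b : ℤ} {F Ω : Type} [Field F] [Field Ω] [Algebra F Ω] [Algebra ℚ F]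
  [Algebra ℚ Ω] [IsScalarTower ℚ F Ω]

/-- the cubic over `F` -/
noncomputable def fc (F : Type) [Field F] (a b : ℤ) : F[X] := X ^ 3 + C (a : F) * X + C (b : F)

theorem aev_fc (e : Ω) : aeval e (fc F a b) = e ^ 3 + (a : Ω) * e + (b : Ω) := by
  simp [fc]

theorem aev_fc_rt (e : Rt (VV a b) Ω) : aeval e.1 (fc F a b) = 0 := by
  rw [aev_fc, ← cub_VV]
  exact e.2

theorem fc_natDegree : (fc F a b).natDegree = 3 := by
  unfold fc; compute_degree!

theorem fc_monic : (fc F a b).Monic := by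
  unfold fc; monicity!

theorem aev_fc' (e : Ω) : aeval e (derivative (fc F a b)) = 3 * e ^ 2 + (a : Ω) := by
  have h : derivative (fc F a b) = C (3 : F) * X ^ 2 + C (a : F) := by
    unfold fc
    rw [derivative_add, derivative_add, derivative_C, derivative_C_mul, derivative_X,
      derivative_X_pow]
    push_cast
    ring
  rw [h, map_add, map_mul, map_pow, aeval_C, aeval_C, aeval_X, map_intCast, map_ofNat]

theorem cub'_VV (e : Ω) : cub' (VV a b) e = 3 * e ^ 2 + (a : Ω) := by
  simp [cub', VV]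

/-- the key relation at the roots -/
theorem at_root {u v q : F[X]} (h : v ^ 2 - fc F a b = u * q) (e : Rt (VV a b) Ω) :
    (aeval e.1 v) ^ 2 = aeval e.1 u * aeval e.1 q := by
  have h1 := congrArg (aeval e.1) h
  rw [map_sub, map_pow, map_mul, aev_fc_rt, sub_zero] at h1
  exact h1

theorem der_root {u v q : F[X]} (h : v ^ 2 - fc F a b = u * q) (e : Rt (VV a b) Ω)
    (hv : aeval e.1 v = 0) : aeval e.1 (derivative u) * aeval e.1 q + aeval e.1 u * aeval e.1 (derivative q) =
      - cub' (VV a b) e.1 := by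
  have h1 := congrArg (fun p => aeval e.1 (derivative p)) h
  simp only [derivative_sub, derivative_mul, derivative_pow, map_sub, map_add, map_mul, map_pow, hv, aev_fc'] at h1
  rw [cub'_VV, ← h1]
  simp

theorem q_ne {x1 x2 x3 : Ω} (hC : IsC ((VV a b).baseChange Ω).toAffine x1 x2 x3)
    {u v q : F[X]} (h : v ^ 2 - fc F a b = u * q) (e : Rt (VV a b) Ω)
    (hu : aeval e.1 u = 0) : aeval e.1 v = 0 ∧ aeval e.1 q ≠ 0 := by
  have h1 := at_root h e
  rw [hu, zero_mul] at h1
  have hv : aeval e.1 v = 0 := pow_eq_zero_iff (two_ne_zero) |>.1 h1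
  refine ⟨hv, fun hq => ?_⟩
  have h2 := der_root h e hv
  rw [hu, hq, mul_zero, zero_mul, add_zero] at h2
  obtain ⟨e', e'', hC'⟩ := root_set hC e
  have h3 : cub' (VV a b) e.1 = 0 := by linear_combination h2
  rw [hC'.cub'_eq] at h3
  rcases mul_eq_zero.1 h3 with h4 | h4
  · exact hC'.ab (sub_eq_zero.1 h4).symm
  · exact hC'.ac (sub_eq_zero.1 h4).symm

theorem Mf_ne {x1 x2 x3 : Ω} (hC : IsC ((VV a b).baseChange Ω).toAffine x1 x2 x3)
    {u v q : F[X]} (h : v ^ 2 - fc F a b = u * q) (e : Rt (VV a b) Ω) : Mf u q e.1 ≠ 0 := by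
  unfold Mf
  apply mul_ne_zero
  · exact pow_ne_zero _ (neg_ne_zero.2 one_ne_zero)
  · split_ifs with hu
    · exact (q_ne hC h e hu).2
    · exact hu

/-- degrees and the leading coefficient: the reduction step -/
theorem red_deg {u v q : F[X]} (hF : (2 : F) ≠ 0) (hu : u.Monic) (h : v ^ 2 - fc F a b = u * q)
    (hn : 2 ≤ u.natDegree) (hv : v.natDegree < u.natDegree) :
    q ≠ 0 ∧ q.natDegree < u.natDegree ∧
      ∃ r : F, r ≠ 0 ∧ (-1) ^ (u.natDegree + q.natDegree) * q.leadingCoeff = r ^ 2 := by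
  have hlead : (v ^ 2 - fc F a b).natDegree = u.natDegree + q.natDegree ∧
      (v ^ 2 - fc F a b).leadingCoeff = q.leadingCoeff := by
    by_cases hq : q = 0
    · exfalso
      rw [hq, mul_zero, sub_eq_zero] at h
      have h1 := congrArg natDegree h
      rw [natDegree_pow, fc_natDegree] at h1
      omega
    · rw [h]
      exact ⟨hu.natDegree_mul' hq, by rw [leadingCoeff_mul, hu.leadingCoeff, one_mul]⟩
  obtain ⟨hd, hl⟩ := hlead
  rcases le_or_gt v.natDegree 1 with h1 | h1
  · have h2 : (v ^ 2).natDegree < (fc F a b).natDegree := by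
      rw [natDegree_pow, fc_natDegree]; omega
    have h3 : (v ^ 2 - fc F a b).natDegree = 3 := by
      rw [natDegree_sub_eq_right_of_natDegree_lt h2, fc_natDegree]
    have h4 : (v ^ 2 - fc F a b).leadingCoeff = -1 := by
      have h5 : (v ^ 2).degree < (fc F a b).degree := degree_lt_degree h2
      rw [leadingCoeff_sub_of_degree_lt' h5, fc_monic.leadingCoeff]
    refine ⟨?_, by omega, 1, one_ne_zero, ?_⟩
    · rintro rfl
      rw [h4] at hl
      simp at hl
    · rw [← hl, h4, ← hd, h3]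
      norm_num
  · have h2 : (fc F a b).natDegree < (v ^ 2).natDegree := by
      rw [natDegree_pow, fc_natDegree]; omega
    have h3 : (v ^ 2 - fc F a b).natDegree = 2 * v.natDegree := by
      rw [natDegree_sub_eq_left_of_natDegree_lt h2, natDegree_pow]
    have h4 : (v ^ 2 - fc F a b).leadingCoeff = v.leadingCoeff ^ 2 := by
      have h5 : (fc F a b).degree < (v ^ 2).degree := degree_lt_degree h2
      rw [leadingCoeff_sub_of_degree_lt h5, leadingCoeff_pow]
    have hv0 : v ≠ 0 := by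
      rintro rfl
      simp at h1
    refine ⟨?_, by omega, v.leadingCoeff, leadingCoeff_ne_zero.2 hv0, ?_⟩
    · rintro rfl
      rw [h4] at hl
      rw [leadingCoeff_zero] at hl
      exact leadingCoeff_ne_zero.2 hv0 (pow_eq_zero_iff two_ne_zero |>.1 hl)
    · rw [← hl, h4, ← hd, h3, pow_mul]
      norm_num

/-- the point of degree one -/
theorem base_one {x1 x2 x3 : Ω} (hC : IsC ((VV a b).baseChange Ω).toAffine x1 x2 x3)
    (hd : Pool.Agent.N922.PQ.dsc a b ≠ 0) {x y : F} {q : F[X]}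
    (h : (C y) ^ 2 - fc F a b = (X - C x) * q) : PC (Ω := Ω) (VV a b) F (Mf (X - C x) q) := by
  have hxy : y ^ 2 = x ^ 3 + (a : F) * x + (b : F) := by
    have h1 := congrArg (eval x) h
    simp [fc] at h1
    linear_combination h1
  have hV := iv_VV hd
  have hns : ((VV a b).baseChange F).toAffine.Nonsingular x y := by
    rw [← Affine.equation_iff_nonsingular_of_Δ_ne_zero]
    · rw [Affine.equation_iff]
      have e1 : ((VV a b).baseChange F).toAffine.a₁ = 0 := by
        show algebraMap ℚ _ (VV a b).a₁ = 0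
        simp [VV]
      have e3 : ((VV a b).baseChange F).toAffine.a₃ = 0 := by
        show algebraMap ℚ _ (VV a b).a₃ = 0
        simp [VV]
      have e2 : ((VV a b).baseChange F).toAffine.a₂ = 0 := by
        show algebraMap ℚ _ (VV a b).a₂ = 0
        simp [VV]
      have e4 : ((VV a b).baseChange F).toAffine.a₄ = (a : F) := by
        show algebraMap ℚ _ (VV a b).a₄ = _
        simp [VV]
      have e6 : ((VV a b).baseChange F).toAffine.a₆ = (b : F) := by
        show algebraMap ℚ _ (VV a b).a₆ = _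
        simp [VV]
      rw [e1, e2, e3, e4, e6]
      linear_combination hxy
    · show ((VV a b).baseChange F).Δ ≠ 0
      rw [WeierstrassCurve.baseChange, WeierstrassCurve.map_Δ]
      exact (_root_.map_ne_zero _).2 hV.Δ
  refine ⟨Point.some _ _ hns, fun e => ?_⟩
  have hk : Mf (X - C x) q e.1 = kpf (Point.some _ _ hns : Pt (VV a b) F) e := by
    unfold Mf
    rw [natDegree_X_sub_C, pow_one]
    simp only [kpf]
    by_cases hx : algebraMap F Ω x = e.1
    · have h0 : aeval e.1 (X - C x) = 0 := by simp [hx]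
      rw [if_pos hx, if_pos h0]
      have hv : aeval e.1 (C y : F[X]) = 0 := by
        have h1 := at_root h e
        rw [h0, zero_mul] at h1
        exact pow_eq_zero_iff (two_ne_zero) |>.1 h1
      have h2 := der_root h e hv
      rw [h0, zero_mul, add_zero, derivative_X_sub_C, map_one, one_mul] at h2
      rw [h2]; ring
    · have h0 : aeval e.1 (X - C x) ≠ 0 := by
        simp only [map_sub, aeval_X, aeval_C]
        intro h1
        exact hx (sub_eq_zero.1 h1).symm
      rw [if_neg hx, if_neg h0]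
      simp only [map_sub, aeval_X, aeval_C]
      ring
  refine ⟨kpf (Point.some _ _ hns : Pt (VV a b) F) e, ?_, FX_kpf _ _, ?_⟩
  · rw [← hk]
    exact Mf_ne hC h e
  · rw [hk]; ring

/-- every divisor is a point -/
theorem all_div [IsSepClosed Ω] [IsGalois F Ω] {x1 x2 x3 : Ω}
    (hC : IsC ((VV a b).baseChange Ω).toAffine x1 x2 x3)
    (hd : Pool.Agent.N922.PQ.dsc a b ≠ 0) (hF : (2 : F) ≠ 0) :
    ∀ (n : ℕ) (u v q : F[X]), u.Monic → u.natDegree = n → v ^ 2 - fc F a b = u * q →
      PC (Ω := Ω) (VV a b) F (Mf u q) := by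
  intro n
  induction n using Nat.strong_induction_on with
  | _ n ih =>
  -- the reduction of `v`
  have main : ∀ (u v q : F[X]), u.Monic → u.natDegree = n → v ^ 2 - fc F a b = u * q →
      (v.natDegree < n ∨ n = 0) → PC (Ω := Ω) (VV a b) F (Mf u q) := by
    intro u v q hu hn h hv
    rcases Nat.lt_or_ge n 2 with h2 | h2
    · interval_cases n
      · have hu1 : u = 1 := hu.natDegree_eq_zero.1 hn
        subst hu1
        refine PC_congr (z := fun _ => 1) (fun e => ?_) PC_one
        simp [Mf]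
      · have hv0 : v.natDegree = 0 := by omega
        obtain ⟨y, hy⟩ : ∃ y, v = C y := ⟨_, eq_C_of_natDegree_eq_zero hv0⟩
        obtain ⟨x, hx⟩ : ∃ x, u = X - C x := by
          refine ⟨- u.coeff 0, ?_⟩
          rw [map_neg, sub_neg_eq_add]
          exact hu.eq_X_add_C hn
        subst hx
        subst hy
        exact base_one hC hd h
    · obtain ⟨hq, hlt, r, hr, hr2⟩ := red_deg hF hu h (by omega) (by omega)
      set c : F := q.leadingCoeff with hc
      have hc0 : c ≠ 0 := leadingCoeff_ne_zero.2 hq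
      have hcΩ : algebraMap F Ω c ≠ 0 := (_root_.map_ne_zero _).2 hc0
      have hu' : (C c⁻¹ * q).Monic := by
        rw [Monic, leadingCoeff_mul, leadingCoeff_C, ← hc, inv_mul_cancel₀ hc0]
      have hdeg : (C c⁻¹ * q).natDegree = q.natDegree := natDegree_C_mul (inv_ne_zero hc0)
      have h' : v ^ 2 - fc F a b = (C c⁻¹ * q) * (C c * u) := by
        rw [h]
        have : (C c⁻¹ * q) * (C c * u) = (C c⁻¹ * C c) * (u * q) := by ring
        rw [this, ← C_mul, inv_mul_cancel₀ hc0, C_1, one_mul]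
      have key := ih q.natDegree (by omega) (C c⁻¹ * q) v (C c * u) hu' hdeg h'
      refine PC_sq (fun e => ⟨FX.Mf _ _, Mf_ne hC h' e, ?_⟩) key
      have hrel := at_root h e
      have hsgn : ((-1 : Ω)) ^ q.natDegree * (-1) ^ u.natDegree * algebraMap F Ω c =
          (algebraMap F Ω r) ^ 2 := by
        rw [← map_pow, ← hr2]
        simp only [map_mul, map_pow, map_neg, map_one]
        ring
      have hrΩ : algebraMap F Ω r ≠ 0 := (_root_.map_ne_zero _).2 hr
      unfold Mf
      rw [hdeg]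
      simp only [map_mul, aeval_C, map_inv₀]
      by_cases hue : aeval e.1 u = 0
      · obtain ⟨hve, hqe⟩ := q_ne hC h e hue
        rw [if_neg (mul_ne_zero (inv_ne_zero hcΩ) hqe), if_pos hue]
        refine ⟨algebraMap F Ω r * aeval e.1 q / algebraMap F Ω c,
          div_ne_zero (mul_ne_zero hrΩ hqe) hcΩ, ((FX.base r).mul (FX.aev q)).div (FX.base c), ?_⟩
        rw [div_pow, mul_pow, ← hsgn]
        field_simp
      · by_cases hqe : aeval e.1 q = 0
        · rw [if_pos (by rw [hqe, mul_zero]), if_neg hue]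
          refine ⟨algebraMap F Ω r * aeval e.1 u, mul_ne_zero hrΩ hue,
            (FX.base r).mul (FX.aev u), ?_⟩
          rw [mul_pow, ← hsgn]
          ring
        · rw [if_neg (mul_ne_zero (inv_ne_zero hcΩ) hqe), if_neg hue]
          have hve : aeval e.1 v ≠ 0 := by
            intro h0
            rw [h0] at hrel
            exact mul_ne_zero hue hqe (by rw [← hrel]; ring)
          refine ⟨algebraMap F Ω r * aeval e.1 v / algebraMap F Ω c,
            div_ne_zero (mul_ne_zero hrΩ hve) hcΩ, ((FX.base r).mul (FX.aev v)).div (FX.base c), ?_⟩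
          rw [div_pow, mul_pow, ← hsgn, hrel]
          field_simp
  intro u v q hu hn h
  by_cases hn0 : n = 0
  · exact main u v q hu hn h (Or.inr hn0)
  -- reduce
  have hdm := modByMonic_add_div v u
  set v' := v %ₘ u with hv'
  set k := v /ₘ u with hk
  have hv2 : v = v' + u * k := hdm.symm
  have h2 : v' ^ 2 - fc F a b = u * (q - 2 * v * k + u * k ^ 2) := by
    have : v' = v - u * k := by rw [hv2]; ring
    rw [this]
    linear_combination h
  have hdeg : v'.natDegree < n := by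
    have h3 : v'.natDegree < u.natDegree := by
      refine natDegree_modByMonic_lt v hu ?_
      intro h1
      rw [h1, natDegree_one] at hn
      exact hn0 hn.symm
    omega
  refine PC_congr (fun e => ?_) (main u v' _ hu hn h2 (Or.inl hdeg))
  unfold Mf
  by_cases hue : aeval e.1 u = 0
  · rw [if_pos hue, if_pos hue]
    have hve := (q_ne hC h e hue).1
    simp only [map_add, map_sub, map_mul, map_pow, hue, hve]
    ring
  · rw [if_neg hue, if_neg hue]

/-- a list of divisors -/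
theorem list_div [IsSepClosed Ω] [IsGalois F Ω] {x1 x2 x3 : Ω}
    (hC : IsC ((VV a b).baseChange Ω).toAffine x1 x2 x3)
    (hd : Pool.Agent.N922.PQ.dsc a b ≠ 0) (hF : (2 : F) ≠ 0) (l : List (F[X] × F[X])) :
    (∀ p ∈ l, p.1.Monic ∧ IsCoprime p.1 (fc F a b) ∧ p.1 ∣ p.2 ^ 2 - fc F a b) →
      PC (Ω := Ω) (VV a b) F
        (fun e => aeval e ((l.map fun p => (-1) ^ p.1.natDegree * p.1).prod)) := by
  induction l with
  | nil =>
    intro _
    refine PC_congr (z := fun _ => 1) (fun e => ?_) PC_one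
    simp
  | cons p l ih =>
    intro hl
    obtain ⟨h1, h2, q, h3⟩ := hl p (List.mem_cons_self)
    have key := PC_mul hC (all_div hC hd hF _ p.1 p.2 q h1 rfl h3)
      (ih fun p' hp' => hl p' (List.mem_cons_of_mem _ hp'))
    refine PC_congr (fun e => ?_) key
    simp only [List.map_cons, List.prod_cons, map_mul]
    congr 1
    have hue : aeval e.1 p.1 ≠ 0 := by
      intro h0
      obtain ⟨x, y, hxy⟩ := h2
      have h4 := congrArg (aeval e.1) hxy
      rw [map_add, map_mul, map_mul, h0, aev_fc_rt, mul_zero, mul_zero, add_zero, map_one] at h4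
      exact zero_ne_one h4
    unfold Mf
    rw [if_neg hue]
    simp

end main

end Pool.Agent.H29C.LFP

namespace Pool.Agent.H29C

open Pool.Agent.TH115.GD
open Pool.Agent.R425.G
open Pool.Agent.Y710.CV (Cond)
open Pool.Agent.N922.PQ (IsCub)
open Pool.Agent.Helper29L.SZ (VV cub_VV iv_VV)

theorem t_LFP : S_LFP := by
  intro a b L _ _ θ hθ hdd h hne _ v hloc
  have hd : Pool.Agent.N922.PQ.dsc a b ≠ 0 := hdd
  obtain ⟨l, s, hl, hs⟩ := hloc
  have hf : (Pool.Agent.N783.PF.fF (Pool.Agent.H30T.fO (cb a b))).map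
      (algebraMap ℚ (v.adicCompletion ℚ)) = LFP.fc (v.adicCompletion ℚ) a b := by
    unfold LFP.fc cb
    simp
  rw [hf] at hs
  simp only [hf] at hl
  have hV := iv_VV hd
  haveI hgal := gal_p v
  obtain ⟨e1, e2, e3, hC⟩ := Pool.Agent.Y355.G.V_roots hV.a1 hV.a3 hV.Δ
    (AlgebraicClosure (v.adicCompletion ℚ))
  have hF : (2 : v.adicCompletion ℚ) ≠ 0 := two_ne_zero
  obtain ⟨P, hP⟩ := LFP.list_div hC hd hF l hl
  refine ⟨act (VV a b) (incl ℚ (v.adicCompletion ℚ) (AlgebraicClosure (v.adicCompletion ℚ))) P,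
    fun σ => rs_act_incl (VV a b) σ P, fun φ => ?_⟩
  have hrt : cub (VV a b) (φ θ) = 0 := by
    have h3 := congrArg φ hθ.root
    rw [cub_VV]
    simpa using h3
  obtain ⟨w, hw0, hw1, hw2⟩ := hP ⟨φ θ, hrt⟩
  have hφh : aeval (φ θ) (h.map (algebraMap ℚ (v.adicCompletion ℚ))) = φ (aeval θ h) := by
    rw [aeval_map_algebraMap, aeval_def, aeval_def, hom_eval₂]
    congr 1
    exact Subsingleton.elim _ _
  have hrel : φ (aeval θ h) *
      aeval (φ θ) ((l.map fun p => (-1) ^ p.1.natDegree * p.1).prod) = (aeval (φ θ) s) ^ 2 := by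
    obtain ⟨t, ht⟩ := hs
    have h4 := congrArg (aeval (φ θ)) ht
    rw [map_mul, LFP.aev_fc_rt ⟨φ θ, hrt⟩, zero_mul, map_sub, map_mul, map_pow, hφh] at h4
    exact sub_eq_zero.1 h4
  simp only at hw2
  set RR := aeval (φ θ) ((l.map fun p => (-1) ^ p.1.natDegree * p.1).prod) with hRR
  have hk0 : kpf P (⟨φ θ, hrt⟩ : Rt (VV a b) (AlgebraicClosure (v.adicCompletion ℚ))) ≠ 0 :=
    kpf_ne hC P _
  have hR0 : RR ≠ 0 := by
    intro h0
    rw [h0, zero_mul] at hw2
    exact pow_ne_zero 2 hw0 hw2.symm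
  refine ⟨w * aeval (φ θ) s / (RR *
    kpf P (⟨φ θ, hrt⟩ : Rt (VV a b) (AlgebraicClosure (v.adicCompletion ℚ)))), ?_, ?_⟩
  · exact (hw1.mul (LFP.FX.aev s)).div ((LFP.FX.aev _).mul (LFP.FX_kpf P ⟨φ θ, hrt⟩))
  · intro b' c' hC'
    rw [← kpf_eq P ⟨φ θ, hrt⟩ hC', div_pow, mul_pow, mul_pow, ← hw2, ← hrel]
    field_simp

end Pool.Agent.H29C
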