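import Pool.Agent.H29C.Stm
import Pool.Agent.H29B.GLR

/-!
# Project ALL part 3, piece LFR: the real place (helper74)
-/

set_option autoImplicit false
set_option linter.all false

open Polynomial Filter

namespace Pool.Agent.H29C.LFRP

/-- a polynomial with nonnegative leading coefficient, positive degree and no zeros to the right of
`c` is positive at `c` -/
theorem pos_right {w : ℝ[X]} (hd : 0 < w.degree) (hl : 0 ≤ w.leadingCoeff) {c : ℝ}
    (h : ∀ x, c ≤ x → w.eval x ≠ 0) : 0 < w.eval c := by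
  by_contra hcon
  rw [not_lt] at hcon
  have ht := w.tendsto_atTop_of_leadingCoeff_nonneg hd hl
  obtain ⟨M, hM⟩ := ((ht.eventually (eventually_ge_atTop 1)).and (eventually_ge_atTop c)).exists
  have hc : ContinuousOn (fun x => w.eval x) (Set.Icc c M) := w.continuous.continuousOn
  obtain ⟨x, hx1, hx2⟩ := intermediate_value_Icc hM.2 hc
    (show (0 : ℝ) ∈ Set.Icc _ _ from ⟨hcon, le_trans zero_le_one hM.1⟩)
  exact h x hx1.1 hx2

/-- a monic polynomial without zeros to the left of `c` -/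
theorem pos_left {u : ℝ[X]} (hm : u.Monic) {c : ℝ} (h : ∀ x, x ≤ c → u.eval x ≠ 0) :
    0 < (-1) ^ u.natDegree * u.eval c := by
  rcases Nat.eq_zero_or_pos u.natDegree with h0 | h0
  · rw [hm.natDegree_eq_zero.1 h0]
    simp
  have hdeg : (u.comp (-X)).natDegree = u.natDegree := by
    rw [natDegree_comp, natDegree_neg, natDegree_X, mul_one]
  have hlead : (u.comp (-X)).leadingCoeff = (-1) ^ u.natDegree := by
    rw [leadingCoeff_comp (by rw [natDegree_neg, natDegree_X]; exact one_ne_zero), hm.leadingCoeff,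
      one_mul, leadingCoeff_neg, leadingCoeff_X]
  have hne : ((-1 : ℝ)) ^ u.natDegree ≠ 0 := pow_ne_zero _ (by norm_num)
  have hsq : ((-1 : ℝ)) ^ u.natDegree * (-1) ^ u.natDegree = 1 := by
    rw [← mul_pow]; norm_num
  have key := pos_right (w := C ((-1 : ℝ) ^ u.natDegree) * u.comp (-X)) (c := -c) ?_ ?_ ?_
  · rw [eval_mul, eval_C, eval_comp, eval_neg, eval_X, neg_neg] at key
    exact key
  · rw [← natDegree_pos_iff_degree_pos, natDegree_C_mul hne, hdeg]
    exact h0
  · rw [leadingCoeff_mul, leadingCoeff_C, hlead, hsq]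
    exact zero_le_one
  · intro x hx
    rw [eval_mul, eval_C, eval_comp, eval_neg, eval_X]
    exact mul_ne_zero hne (h _ (by linarith))

/-- products of positive elements -/
theorem prod_pos {c : ℝ} (l : List (ℝ[X] × ℝ[X]))
    (h : ∀ p ∈ l, 0 < (-1) ^ p.1.natDegree * p.1.eval c) :
    0 < ((l.map fun p : ℝ[X] × ℝ[X] => ((-1) ^ p.1.natDegree * p.1 : ℝ[X])).prod).eval c := by
  induction l with
  | nil => simp
  | cons p l ih =>
    rw [List.map_cons, List.prod_cons, eval_mul]
    refine mul_pos ?_ (ih fun q hq => h q (List.mem_cons_of_mem _ hq))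
    have := h p List.mem_cons_self
    simpa using this

end Pool.Agent.H29C.LFRP

namespace Pool.Agent.H29C

open Pool.Agent.N922.PQ (IsCub)
open Pool.Agent.N783.PF (fF)
open Pool.Agent.N783.PQ (LocIm)
open Pool.Agent.H30T (fO)
open Pool.Agent.H29B (PosAt GLR_emb GLR_root)

/-- **Piece LFR.** -/
theorem t_LFR : S_LFR := by
  intro a b L _ _ θ hθ hd h hne σ hloc φ hφ
  have hF : (fF (fO (cb a b))).map σ = X ^ 3 + C (a : ℝ) * X + C (b : ℝ) := by
    rw [Pool.Agent.H30T.fF_fO]
    unfold cb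
    simp [Polynomial.map_map]
  rw [hF] at hloc
  obtain ⟨l, s, hl, hs⟩ := hloc
  have hroot : (φ θ) ^ 3 + (a : ℝ) * φ θ + (b : ℝ) = 0 := by
    have := congrArg φ hθ.root
    simpa using this
  have hFe : ∀ x : ℝ, (X ^ 3 + C (a : ℝ) * X + C (b : ℝ) : ℝ[X]).eval x =
      x ^ 3 + (a : ℝ) * x + (b : ℝ) := by
    intro x
    simp
  have hφh : φ (aeval θ h) = (h.map σ).eval (φ θ) := by
    rw [eval_map, aeval_def, hom_eval₂]
    congr 1
    exact Subsingleton.elim _ _
  have hne' : φ (aeval θ h) ≠ 0 := by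
    rw [Ne, map_eq_zero]
    exact hne
  -- the polynomials of the list have no zero below
  have hno : ∀ p ∈ l, ∀ x : ℝ, x ≤ φ θ → p.1.eval x ≠ 0 := by
    intro p hp x hx h0
    obtain ⟨-, hco, hdv⟩ := hl p hp
    have h1 : (x ^ 3 + (a : ℝ) * x + (b : ℝ)) = (p.2.eval x) ^ 2 := by
      obtain ⟨q, hq⟩ := hdv
      have h2 := congrArg (Polynomial.eval x) hq
      rw [eval_mul, h0, zero_mul, eval_sub, eval_pow, hFe, sub_eq_zero] at h2
      exact h2.symm
    have h2 : (x ^ 3 + (a : ℝ) * x + (b : ℝ)) ≠ 0 := by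
      intro h3
      obtain ⟨r, t, hrt⟩ := hco
      have h4 := congrArg (Polynomial.eval x) hrt
      rw [eval_add, eval_mul, eval_mul, h0, hFe, h3, mul_zero, mul_zero, add_zero, eval_one] at h4
      exact zero_ne_one h4
    have h3 : 0 < x ^ 3 + (a : ℝ) * x + (b : ℝ) := by
      rw [h1] at h2 ⊢
      exact lt_of_le_of_ne (sq_nonneg _) h2.symm
    obtain ⟨t, ht1, ht2⟩ := GLR_root (a : ℝ) (b : ℝ) x h3
    obtain ⟨ψ, hψ⟩ := GLR_emb hθ ht2
    have h4 := hφ ψ
    rw [hψ] at h4
    linarith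
  have hpos := LFRP.prod_pos (c := φ θ) l fun p hp => LFRP.pos_left (hl p hp).1 (hno p hp)
  obtain ⟨q, hq⟩ := hs
  have h1 := congrArg (Polynomial.eval (φ θ)) hq
  rw [eval_sub, eval_mul, eval_pow, eval_mul, hFe, hroot, zero_mul, sub_eq_zero, ← hφh] at h1
  rcases lt_or_gt_of_ne hne' with h2 | h2
  · have h3 := mul_neg_of_neg_of_pos h2 hpos
    rw [h1] at h3
    exact absurd h3 (not_lt.2 (sq_nonneg _))
  · exact h2

end Pool.Agent.H29C
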