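import Pool.Agent.H29C.ManyA

/-!
# Project ALL part 3, piece MANY: the core
-/

set_option autoImplicit false
set_option linter.all false

open Polynomial IsDedekindDomain NumberField
open scoped Classical

namespace Pool.Agent.H29C.ManyB

theorem many (a b : ℤ) (hroot : ∀ z : ℤ, z ^ 3 + a * z + b ≠ 0) (T : Finset ℕ) (N : ℕ) :
    ∃ l : ℕ, l.Prime ∧ N < l ∧ l % 8 = 1 ∧
      (∀ p ∈ T, p.Prime → ∃ z : ℤ, (p : ℤ) ∣ z ^ 2 - l) ∧ ∀ z : ℤ, ¬ (l : ℤ) ∣ z ^ 3 + a * z + b := by
  set f : ℤ[X] := X ^ 3 + C a * X + C b with hf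
  have hdeg : f.natDegree = 3 := by
    rw [hf]; compute_degree!
  have hmon : f.Monic := by
    rw [hf]; monicity!
  have hev : ∀ z : ℤ, f.eval z = z ^ 3 + a * z + b := by
    intro z; rw [hf]; simp
  have hirrZ : Irreducible f := by
    rw [Polynomial.Monic.irreducible_iff_roots_eq_zero_of_degree_le_three hmon (by omega) (by omega)]
    rw [Multiset.eq_zero_iff_forall_notMem]
    intro z hz
    rw [mem_roots hmon.ne_zero, IsRoot.def, hev] at hz
    exact hroot z hz
  have hirrQ : Irreducible (f.map (Int.castRingHom ℚ)) := by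
    have := (Polynomial.Monic.irreducible_iff_irreducible_map_fraction_map (K := ℚ) hmon).1 hirrZ
    exact this
  set m : ℕ := 8 * ∏ p ∈ T.filter Nat.Prime, p with hm
  have hm0 : m ≠ 0 := by
    rw [hm]
    refine mul_ne_zero (by norm_num) (Finset.prod_ne_zero_iff.2 fun p hp => ?_)
    exact (Finset.mem_filter.1 hp).2.ne_zero
  obtain ⟨l, k, hl, hlB, hlk, hirr⟩ := ManyA.cheb3 f hmon hdeg hirrQ m (max N 2) hm0
  have hlN : N < l := lt_of_le_of_lt (le_max_left _ _) hlB
  have hl2 : 2 < l := lt_of_le_of_lt (le_max_right _ _) hlB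
  have : Fact l.Prime := ⟨hl⟩
  refine ⟨l, hl, hlN, ?_, ?_, ?_⟩
  · have h8 : l ≡ k ^ 4 [MOD 8] := hlk.of_dvd ⟨_, hm⟩
    have hodd : l % 2 = 1 := by
      rcases hl.eq_two_or_odd with h | h
      · omega
      · exact h
    have hk : (k ^ 4) % 8 = ((k % 8) ^ 4) % 8 := by rw [Nat.pow_mod]
    have h9 : l % 8 = (k ^ 4) % 8 := h8
    rw [hk] at h9
    have hk8 : k % 8 < 8 := Nat.mod_lt _ (by norm_num)
    have hl8 : l % 8 % 2 = 1 := by omega
    generalize k % 8 = r at h9 hk8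
    interval_cases r <;> omega
  · intro p hp hpp
    have h1 : p ∣ m := by
      rw [hm]
      exact (Finset.dvd_prod_of_mem (fun p => p) (Finset.mem_filter.2 ⟨hp, hpp⟩)).mul_left _
    have h2 : l ≡ k ^ 4 [MOD p] := hlk.of_dvd h1
    refine ⟨(k : ℤ) ^ 2, ?_⟩
    have h3 := (Nat.modEq_iff_dvd).1 h2
    push_cast at h3
    have h4 : ((k : ℤ) ^ 2) ^ 2 - l = (k : ℤ) ^ 4 - l := by ring
    rw [h4]
    exact h3
  · intro z hz
    have h1 : (f.map (Int.castRingHom (ZMod l))).IsRoot (z : ZMod l) := by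
      rw [IsRoot.def, eval_intCast_map, hev]
      exact (ZMod.intCast_zmod_eq_zero_iff_dvd _ _).2 hz
    have h2 := Polynomial.degree_eq_one_of_irreducible_of_root hirr h1
    have h3 : (f.map (Int.castRingHom (ZMod l))).natDegree = 3 := by
      rw [hmon.natDegree_map, hdeg]
    rw [Polynomial.degree_eq_natDegree (hmon.map _).ne_zero, h3] at h2
    norm_num at h2

end Pool.Agent.H29C.ManyB
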