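import Pool.Agent.H29C.Stm2
import Pool.Agent.H29C.ManyB

/-!
# Project ALL part 3, piece MANY
-/

set_option autoImplicit false
set_option linter.all false

open IsDedekindDomain NumberField Filter Polynomial
open scoped Classical

namespace Pool.Agent.H29C

theorem t_MANY : S_MANY := fun a b _ hroot T N => ManyB.many a b hroot T N

end Pool.Agent.H29C
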