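import Pool.Agent.H29C.Stm
import Pool.Agent.H29A.SLOWW
import Pool.Agent.H29A.TWC
import Pool.Agent.H29B.CRB
import Pool.Agent.H29B.LOWR

/-!
# Project ALL part 3 (helper29), piece SQ0 (helper3)
-/

set_option autoImplicit false
set_option linter.all false

open NumberField IsDedekindDomain WithZero WeierstrassCurve WeierstrassCurve.Affine
open scoped NNReal Classical

namespace Pool.Agent.H29C

open Pool.Agent
open Pool.Agent.H29A
open Pool.Agent.H29A.SLOWP (VV_eq)
open Pool.Agent.TH115.GD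
open Pool.Agent.Y710.CV (Cond cond1)
open Pool.Agent.Y702.G (sh base pts)
open Pool.Agent.Helper29L.LOW
open Pool.Agent.Helper29L (gal_self)
open Pool.Agent.H30EV (curve Coch ShaCocycle cob)
open Pool.Agent.H30GR (Sel2 sel_low)
open Pool.Agent.H29B (PosAt t_CRB t_LOWR)

theorem t_SQ0 : S_SQ0 := by
  intro a b hdd hirr hcard L _ _ θ h α hα hn hloc hreal
  by_contra hns
  have hds : Pool.Agent.N922.PQ.dsc a b ≠ 0 := hdd
  have hd0 : (1 : ℤ) ≠ 0 := one_ne_zero
  have hW : (Wt a b 1).Δ ≠ 0 := by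
    rw [Wt_disc]
    exact mul_ne_zero (mul_ne_zero (by norm_num) (pow_ne_zero 6 hd0)) hds
  have hX : curve ℚ (a, b) = base (Wt a b 1) ℚ := by
    unfold curve base Wt
    ext <;> simp
  haveI := gal_self
  haveI hfin : Finite (Sel2 (curve ℚ (a, b))) :=
    Nat.finite_of_card_ne_zero (by rw [hcard]; exact one_ne_zero)
  have hn1 : IsSquare (Algebra.norm ℚ (1 : L)) := by
    rw [map_one]
    exact ⟨1, (mul_one 1).symm⟩
  have hα0 : ∀ i : Fin 2, (![1, α] : Fin 2 → L) i ≠ 0 := by
    intro i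
    fin_cases i
    · exact one_ne_zero
    · exact hα
  have hαn : ∀ i : Fin 2, IsSquare (Algebra.norm ℚ ((![1, α] : Fin 2 → L) i)) := by
    intro i
    fin_cases i
    · exact hn1
    · exact hn
  have hαd : ∀ i j : Fin 2, IsSquare ((![1, α] : Fin 2 → L) i * (![1, α] : Fin 2 → L) j) → i = j := by
    intro i j hij
    fin_cases i <;> fin_cases j
    · rfl
    · exact absurd (by simpa using hij) hns
    · exact absurd (by simpa using hij) hns
    · rfl
  have hαp : ∀ i : Fin 2, PosAt θ ((![1, α] : Fin 2 → L) i) := by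
    intro i
    fin_cases i
    · intro φ _
      show 0 < φ 1
      rw [map_one]
      exact one_pos
    · exact hreal
  have hαc : ∀ (i : Fin 2) (v : HeightOneSpectrum (𝓞 ℚ)),
      Cond (v.adicCompletion ℚ) (AlgebraicClosure (v.adicCompletion ℚ)) (sh (Wt a b 1))
        (4 * ((1 : ℤ) : L) * θ) ((![1, α] : Fin 2 → L) i) := by
    intro i v
    fin_cases i
    · exact cond1 fun φ => ⟨1, fun σ _ => map_one σ, by
        show φ 1 = 1 ^ 2
        rw [map_one, one_pow]⟩
    · haveI : CharZero (v.adicCompletion ℚ) := algebraRat.charZero _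
      have h1 : IsSquare (((4 * 1 : ℤ) : v.adicCompletion ℚ)) := ⟨2, by push_cast; norm_num⟩
      have h4 := (t_TWC L a b θ h hds v (4 * 1) (by norm_num) h1 α).1 (hloc v)
      unfold CondAt at h4
      rw [VV_eq] at h4
      have h5 : ((4 * 1 : ℤ) : L) * θ = 4 * ((1 : ℤ) : L) * θ := by push_cast; ring
      rw [h5] at h4
      exact h4
  have key : ∃ c : Fin 2 → Coch (curve ℚ (a, b)),
      (∀ i, ShaCocycle (curve ℚ (a, b)) (c i) ∧ ∀ σ, 2 • c i σ = 0) ∧
      (∀ i j, (∃ Q, 2 • Q = 0 ∧ c i - c j = cob Q) → i = j) := by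
    rw [hX]
    exact t_LOWR ℚ (Wt a b 1) hW (no_rat h hd0) L (4 * ((1 : ℤ) : L) * θ) (cf_of h hd0) 2
      ![1, α] hα0 hαn hαd hαc
      (fun i => t_CRB L a b θ h hds 1 one_pos _ (hα0 i) (hαn i) (hαp i))
  obtain ⟨c, hc1, hc2⟩ := key
  have h2 := sel_low c hc1 hc2
  rw [hcard] at h2
  omega

end Pool.Agent.H29C
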