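import Pool.Agent.H29C.Stm2
import Pool.Agent.H30EV.Ram
import Pool.Agent.H30H.Gal
import Pool.Agent.H30T.InfB
import Pool.Agent.Helper28H.FE.Cyc

/-!
# Project ALL, part 3, piece TOW
-/

set_option autoImplicit false
set_option linter.all false

open Polynomial IsDedekindDomain NumberField
open scoped Classical

namespace Pool.Agent.H29C.TOW

open Pool.Agent.H30T (AdmissibleE RamifiedAt SplitsAt)
open Pool.Agent.H30T.InfQ (int_mem res_iff)
open Pool.Agent.Helper28H.FE.Cyc (root_sq map_q neg_root)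

section arith

variable {M M' : Type} [Field M] [NumberField M] [Field M'] [NumberField M'] [Algebra M M']
  [IsGalois M M']

/-- a prime which is ramified above is ramified below, or is `l` -/
theorem ram_of {l k : ℕ} (hl : l.Prime) (hk : l = 8 * k + 1) (S W : 𝓞 M') (hS : S ^ 2 = (l : 𝓞 M'))
    (hW : 2 * W = 1 + S) (hpm : ∀ σ : M' ≃ₐ[M] M', σ = 1 ∨ σ (S : M') = -S)
    {p : ℕ} (hp : p.Prime) (hpl : p ≠ l) (h : RamifiedAt M' p) : RamifiedAt M p := by
  obtain ⟨w, hw⟩ := h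
  have hwp : w.asIdeal.IsPrime := w.isPrime
  have hpw : (p : 𝓞 M') ∈ w.asIdeal := Ideal.pow_le_self two_ne_zero hw
  have hSn : S ∉ w.asIdeal := by
    intro h5
    have h6 : ((l : ℤ) : 𝓞 M') ∈ w.asIdeal := by
      push_cast
      rw [← hS, sq]
      exact Ideal.mul_mem_left _ _ h5
    have h7 : (p : ℤ) ∣ (l : ℤ) := int_mem w p hp hpw _ h6
    have h8 : p ∣ l := by exact_mod_cast h7
    exact hpl ((Nat.prime_dvd_prime_iff_eq hp hl).1 h8)
  have hin : ∀ σ : M' ≃ₐ[M] M', (∀ y : 𝓞 M', σ • y - y ∈ w.asIdeal) → σ = 1 := by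
    intro σ hσ
    rcases hpm σ with h1 | h1
    · exact h1
    · exfalso
      have e1 : σ • S = -S := by
        apply RingOfIntegers.ext
        exact h1
      have e2 : σ • W = 1 - W := by
        have h20 : (2 : 𝓞 M') ≠ 0 := by exact_mod_cast (Nat.cast_ne_zero (R := 𝓞 M')).2 (two_ne_zero)
        apply mul_left_cancel₀ h20
        have h3 := congrArg (fun x => σ • x) hW
        have h4 : σ • ((2 : 𝓞 M') * W) = 2 * (σ • W) := by
          rw [smul_mul']
          congr 1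
          apply RingOfIntegers.ext
          exact map_ofNat σ 2
        have h5 : σ • ((1 : 𝓞 M') + S) = 1 - S := by
          rw [smul_add, e1, smul_one, sub_eq_add_neg]
        have h6 : 2 * (σ • W) = 1 - S := by
          rw [← h4, ← h5]
          exact h3
        rw [h6]
        linear_combination hW
      apply hSn
      have h3 := hσ W
      rw [e2] at h3
      have h4 : S = -(1 - W - W) := by linear_combination -hW
      rw [h4]
      exact (Ideal.neg_mem_iff _).2 h3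
  have hv := Pool.Agent.H30EV.val_of_inertia (K := M) w hin (p : M)
  refine ⟨w.under (𝓞 M), ?_⟩
  rw [map_natCast] at hv
  have h1 : w.valuation M' (algebraMap (𝓞 M') M' (p : 𝓞 M')) ≤ WithZero.exp (-((2 : ℕ) : ℤ)) := by
    rw [HeightOneSpectrum.valuation_of_algebraMap]
    exact (w.intValuation_le_pow_iff_mem _ _).2 hw
  rw [map_natCast, hv] at h1
  have h2 : (w.under (𝓞 M)).valuation M (algebraMap (𝓞 M) M (p : 𝓞 M)) ≤
      WithZero.exp (-((2 : ℕ) : ℤ)) := by
    rw [map_natCast]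
    exact h1
  rw [HeightOneSpectrum.valuation_of_algebraMap] at h2
  exact ((w.under (𝓞 M)).intValuation_le_pow_iff_mem _ _).1 h2

/-- complete splitting -/
theorem splits_of {l k : ℕ} (hl : l.Prime) (hk : l = 8 * k + 1) (S W : 𝓞 M') (hS : S ^ 2 = (l : 𝓞 M'))
    (hW : 2 * W = 1 + S) (hpm : ∀ σ : M' ≃ₐ[M] M', σ = 1 ∨ σ (S : M') = -S)
    (τ : M' ≃ₐ[M] M') (hτS : τ (S : M') = -S) (hτ2 : ∀ x, τ (τ x) = x)
    (hfix : ∀ x : M', τ x = x → ∃ y : M, algebraMap M M' y = x)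
    {p : ℕ} (hp : p.Prime) (hpl : p ≠ l) {z : ℤ} (hz : (p : ℤ) ∣ z ^ 2 - l) (h : SplitsAt M p) :
    SplitsAt M' p := by
  intro w hpw
  have hwp : w.asIdeal.IsPrime := w.isPrime
  have h20 : (2 : 𝓞 M') ≠ 0 := by exact_mod_cast (Nat.cast_ne_zero (R := 𝓞 M')).2 (two_ne_zero)
  have hu : (p : 𝓞 M) ∈ (w.under (𝓞 M)).asIdeal := by
    rw [Pool.Agent.H30H.mem_under, map_natCast]
    exact hpw
  refine ⟨fun hw => ?_, ?_⟩
  · obtain ⟨v, hv⟩ := ram_of (M := M) hl hk S W hS hW hpm hp hpl ⟨w, hw⟩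
    exact (h v (Ideal.pow_le_self two_ne_zero hv)).1 hv
  rw [res_iff w p hp hpw]
  -- residues of elements of `M`
  have hres : ∀ y : 𝓞 M, ∃ c : ℤ, algebraMap (𝓞 M) (𝓞 M') y - (c : 𝓞 M') ∈ w.asIdeal := by
    intro y
    obtain ⟨c, hc⟩ := (res_iff _ p hp hu).1 (h _ hu).2 y
    refine ⟨c, ?_⟩
    rw [Pool.Agent.H30H.mem_under, map_sub, map_intCast] at hc
    exact hc
  -- fixed integers
  have hfixO : ∀ x : 𝓞 M', τ • x = x → ∃ y : 𝓞 M, algebraMap (𝓞 M) (𝓞 M') y = x := by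
    intro x hx
    obtain ⟨y, hy⟩ := hfix (x : M') (congrArg (fun t : 𝓞 M' => (t : M')) hx)
    have h1 : IsIntegral ℤ (algebraMap M M' y) := by
      rw [hy]
      exact RingOfIntegers.isIntegral_coe x
    have h2 : IsIntegral ℤ y := (isIntegral_algebraMap_iff (algebraMap M M').injective).1 h1
    exact ⟨⟨y, h2⟩, RingOfIntegers.ext hy⟩
  have hττ : ∀ x : 𝓞 M', τ • (τ • x) = x := fun x => RingOfIntegers.ext (hτ2 x)
  have e1 : τ • S = -S := RingOfIntegers.ext hτS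
  have e2' : τ • (2 : 𝓞 M') = 2 := RingOfIntegers.ext (map_ofNat τ 2)
  have e2 : τ • W = 1 - W := by
    apply mul_left_cancel₀ h20
    have h3 : τ • ((2 : 𝓞 M') * W) = τ • (1 + S) := by rw [hW]
    rw [smul_mul', e2', smul_add, e1, smul_one] at h3
    rw [h3]
    linear_combination hW
  intro x
  obtain ⟨u, hu'⟩ := hfixO (x + τ • x) (by rw [smul_add, hττ, add_comm])
  obtain ⟨v, hv'⟩ := hfixO ((x - τ • x) * S) (by rw [smul_mul', smul_sub, hττ, e1]; ring)
  have hgen : 2 * (l : 𝓞 M') * x = (l : 𝓞 M') * algebraMap (𝓞 M) (𝓞 M') u +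
      algebraMap (𝓞 M) (𝓞 M') v * S := by
    rw [hu', hv', ← hS]
    ring
  -- `l` is invertible
  have hpl' : ¬ p ∣ l := fun h8 => hpl ((Nat.prime_dvd_prime_iff_eq hp hl).1 h8)
  obtain ⟨a, b, hab⟩ : IsCoprime (p : ℤ) (l : ℤ) :=
    (Nat.prime_iff_prime_int.1 hp).coprime_iff_not_dvd.2 (by exact_mod_cast hpl')
  have hb : (b : 𝓞 M') * (l : 𝓞 M') - 1 ∈ w.asIdeal := by
    have h5 : (b : 𝓞 M') * (l : 𝓞 M') - 1 = -(a : 𝓞 M') * (p : 𝓞 M') := by
      have h6 : ((a : ℤ) : 𝓞 M') * (p : 𝓞 M') + (b : 𝓞 M') * (l : 𝓞 M') = 1 := by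
        exact_mod_cast congrArg (fun z : ℤ => (z : 𝓞 M')) hab
      linear_combination h6
    rw [h5]
    exact Ideal.mul_mem_left _ _ hpw
  rcases hp.eq_two_or_odd' with hp2 | hp2
  · have h4 : (2 : 𝓞 M') ∈ w.asIdeal := by
      rw [hp2] at hpw
      exact_mod_cast hpw
    -- `l x - v W` comes from `M`
    obtain ⟨t, ht⟩ := hfixO ((l : 𝓞 M') * x - algebraMap (𝓞 M) (𝓞 M') v * W) (by
      have e3 : τ • algebraMap (𝓞 M) (𝓞 M') v = algebraMap (𝓞 M) (𝓞 M') v := by
        apply RingOfIntegers.ext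
        exact τ.commutes (v : M)
      have e4 : τ • (l : 𝓞 M') = (l : 𝓞 M') := RingOfIntegers.ext (map_natCast τ l)
      rw [smul_sub, smul_mul', smul_mul', e3, e4, e2]
      apply mul_left_cancel₀ h20
      have h7 : 2 * (l : 𝓞 M') * (τ • x) = (l : 𝓞 M') * algebraMap (𝓞 M) (𝓞 M') u -
          algebraMap (𝓞 M) (𝓞 M') v * S := by
        rw [hu', hv', ← hS]
        ring
      linear_combination h7 - hgen + 2 * algebraMap (𝓞 M) (𝓞 M') v * hW)
    have hWW : W * (W - 1) ∈ w.asIdeal := by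
      have h9 : W * (W - 1) = (k : 𝓞 M') * 2 := by
        apply mul_left_cancel₀ h20
        apply mul_left_cancel₀ h20
        have hSk : S ^ 2 = 8 * (k : 𝓞 M') + 1 := by rw [hS, hk]; push_cast; ring
        linear_combination (2 * W + S - 1) * hW + hSk
      rw [h9]
      exact Ideal.mul_mem_left _ _ h4
    obtain ⟨ct, hct⟩ := hres t
    obtain ⟨cv, hcv⟩ := hres v
    obtain ⟨e, he⟩ : ∃ e : ℤ, W - (e : 𝓞 M') ∈ w.asIdeal := by
      rcases hwp.mem_or_mem hWW with h9 | h9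
      · exact ⟨0, by simpa using h9⟩
      · exact ⟨1, by simpa using h9⟩
    refine ⟨b * (ct + cv * e), ?_⟩
    have h10 : x - ((b * (ct + cv * e) : ℤ) : 𝓞 M') =
        -x * ((b : 𝓞 M') * (l : 𝓞 M') - 1) + ((b : 𝓞 M') * (algebraMap (𝓞 M) (𝓞 M') t - (ct : 𝓞 M')) +
        ((b : 𝓞 M') * W * (algebraMap (𝓞 M) (𝓞 M') v - (cv : 𝓞 M')) +
        (b : 𝓞 M') * (cv : 𝓞 M') * (W - (e : 𝓞 M')))) := by
      push_cast
      linear_combination (-(b : 𝓞 M')) * ht
    rw [h10]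
    exact Ideal.add_mem _ (Ideal.mul_mem_left _ _ hb) (Ideal.add_mem _ (Ideal.mul_mem_left _ _ hct)
      (Ideal.add_mem _ (Ideal.mul_mem_left _ _ hcv) (Ideal.mul_mem_left _ _ he)))
  · obtain ⟨d, hd⟩ := hp2
    have hdm : 2 * ((d : 𝓞 M') + 1) - 1 ∈ w.asIdeal := by
      have h5 : 2 * ((d : 𝓞 M') + 1) - 1 = (p : 𝓞 M') := by
        rw [hd]
        push_cast
        ring
      rw [h5]
      exact hpw
    have hSS : (S - (z : 𝓞 M')) * (S + (z : 𝓞 M')) ∈ w.asIdeal := by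
      obtain ⟨r, hr⟩ := hz
      have h9 : (S - (z : 𝓞 M')) * (S + (z : 𝓞 M')) = -(r : 𝓞 M') * (p : 𝓞 M') := by
        have h6 : ((z : ℤ) : 𝓞 M') ^ 2 - (l : 𝓞 M') = (p : 𝓞 M') * (r : 𝓞 M') := by
          exact_mod_cast congrArg (fun z : ℤ => (z : 𝓞 M')) hr
        linear_combination hS - h6
      rw [h9]
      exact Ideal.mul_mem_left _ _ hpw
    obtain ⟨cu, hcu⟩ := hres u
    obtain ⟨cv, hcv⟩ := hres v
    obtain ⟨e, he⟩ : ∃ e : ℤ, S - (e : 𝓞 M') ∈ w.asIdeal := by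
      rcases hwp.mem_or_mem hSS with h9 | h9
      · exact ⟨z, h9⟩
      · exact ⟨-z, by push_cast; rwa [sub_neg_eq_add]⟩
    refine ⟨(d + 1) * b * (l * cu + cv * e), ?_⟩
    have h10 : x - (((d + 1) * b * (l * cu + cv * e) : ℤ) : 𝓞 M') =
        (-x * (2 * ((d : 𝓞 M') + 1))) * ((b : 𝓞 M') * (l : 𝓞 M') - 1) +
        (-x * (2 * ((d : 𝓞 M') + 1) - 1) + (
        (((d : 𝓞 M') + 1) * (b : 𝓞 M') * (l : 𝓞 M')) * (algebraMap (𝓞 M) (𝓞 M') u - (cu : 𝓞 M')) +
        ((((d : 𝓞 M') + 1) * (b : 𝓞 M') * S) * (algebraMap (𝓞 M) (𝓞 M') v - (cv : 𝓞 M')) +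
        (((d : 𝓞 M') + 1) * (b : 𝓞 M') * (cv : 𝓞 M')) * (S - (e : 𝓞 M'))))) := by
      push_cast
      linear_combination (((d : 𝓞 M') + 1) * (b : 𝓞 M')) * hgen
    rw [h10]
    exact Ideal.add_mem _ (Ideal.mul_mem_left _ _ hb) (Ideal.add_mem _ (Ideal.mul_mem_left _ _ hdm)
      (Ideal.add_mem _ (Ideal.mul_mem_left _ _ hcu)
      (Ideal.add_mem _ (Ideal.mul_mem_left _ _ hcv) (Ideal.mul_mem_left _ _ he))))

end arith

/-- the ramified primes are bounded -/
theorem bound (M : Type) [Field M] [NumberField M] : ∃ B : ℕ, ∀ p : ℕ, p.Prime → B < p → ¬ RamifiedAt M p := by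
  refine ⟨(discr M).natAbs, fun p hp hB ⟨w, hw⟩ => ?_⟩
  have hpd : ¬ (p : ℤ) ∣ discr M := by
    intro h
    have h1 : p ∣ (discr M).natAbs := by
      have := Int.natAbs_dvd_natAbs.2 h
      rwa [Int.natAbs_natCast] at this
    exact absurd (Nat.le_of_dvd (Int.natAbs_pos.2 (discr_ne_zero M)) h1) (not_le.2 hB)
  have h2 := (not_dvd_discr_iff_forall_mem M (𝓞 M) (Nat.prime_iff_prime_int.1 hp)).1 hpd w.asIdeal
    w.isPrime (by
      have := Ideal.pow_le_self two_ne_zero hw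
      exact_mod_cast this)
  have hwp : w.asIdeal.IsPrime := w.isPrime
  have hpw : (p : 𝓞 M) ∈ w.asIdeal := Ideal.pow_le_self two_ne_zero hw
  haveI := h2
  have h3 : w.asIdeal.ramificationIdx ℤ = 1 := Ideal.ramificationIdx_eq_one w.asIdeal ℤ
  have hI0 : w.asIdeal.under ℤ ≠ ⊥ := by
    intro h
    have h4 : (p : ℤ) ∈ w.asIdeal.under ℤ := by
      rw [Ideal.under_def, Ideal.mem_comap]
      simpa using hpw
    rw [h, Ideal.mem_bot] at h4
    exact hp.ne_zero (by exact_mod_cast h4)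
  haveI : w.asIdeal.LiesOver (w.asIdeal.under ℤ) := ⟨rfl⟩
  have h5 : (w.asIdeal.under ℤ).ramificationIdx' w.asIdeal = 1 := by
    rw [Ideal.ramificationIdx'_eq_ramificationIdx (w.asIdeal.under ℤ) w.asIdeal hI0]
    exact h3
  have h6 : Ideal.map (algebraMap ℤ (𝓞 M)) (w.asIdeal.under ℤ) ≤ w.asIdeal := Ideal.map_comap_le
  refine (Ideal.ramificationIdx'_ne_one_iff h6).2 ?_ h5
  rw [Ideal.map_le_iff_le_comap]
  intro n hn
  rw [Ideal.under_def, Ideal.mem_comap] at hn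
  rw [Ideal.mem_comap]
  obtain ⟨m, rfl⟩ := int_mem w p hp hpw n (by simpa using hn)
  rw [map_mul]
  exact Ideal.mul_mem_right _ _ (by simpa using hw)

/-- a prime with a square root is ramified -/
theorem ram_of_sq {M : Type} [Field M] [NumberField M] {l : ℕ} (hl : l.Prime) {z : M}
    (hz : z ^ 2 = (l : M)) : RamifiedAt M l := by
  have hsint : IsIntegral ℤ z := ⟨X ^ 2 - C (l : ℤ), monic_X_pow_sub_C _ two_ne_zero, by simp [hz]⟩
  obtain ⟨S, hS⟩ : ∃ S : 𝓞 M, algebraMap (𝓞 M) M S = z := ⟨⟨z, hsint⟩, rfl⟩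
  have hS2 : S ^ 2 = (l : 𝓞 M) := by
    apply RingOfIntegers.coe_injective
    rw [map_pow, hS, hz, map_natCast]
  obtain ⟨m, hm, hle⟩ := Ideal.exists_le_maximal (Ideal.span {(l : 𝓞 M)}) (by
    intro h
    rw [Ideal.span_singleton_eq_top] at h
    have h1 := congrArg Int.natAbs (Algebra.norm_algebraMap (S := 𝓞 M) (l : ℤ))
    have h2 : (algebraMap ℤ (𝓞 M)) (l : ℤ) = (l : 𝓞 M) := by simp
    rw [h2, Int.natAbs_pow, Int.natAbs_natCast] at h1
    have h3 : IsUnit (Algebra.norm ℤ (l : 𝓞 M)) := h.map _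
    rw [Int.isUnit_iff_natAbs_eq, h1] at h3
    rw [RingOfIntegers.rank] at h3
    exact hl.one_lt.ne' ((Nat.pow_eq_one.1 h3).resolve_right Module.finrank_pos.ne'))
  have hlm : (l : 𝓞 M) ∈ m := hle (Ideal.mem_span_singleton_self _)
  refine ⟨⟨m, hm.isPrime, ?_⟩, ?_⟩
  · rintro rfl
    rw [Ideal.mem_bot] at hlm
    exact hl.ne_zero (by exact_mod_cast hlm)
  · show (l : 𝓞 M) ∈ m ^ 2
    rw [← hS2] at hlm ⊢
    exact Ideal.pow_mem_pow (hm.isPrime.mem_of_pow_mem 2 hlm) 2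

/-- adjoining the square root -/
theorem adj (M : Type) [Field M] [NumberField M] [IsGalois ℚ M] {l : ℕ} (hl : l.Prime)
    (hirr : ∀ t : M, t ^ 2 ≠ (l : M)) (hreal : Nonempty (M →+* ℝ)) :
    ∃ (E : Type) (_ : Field E) (_ : NumberField E) (_ : Algebra M E) (s : E), IsGalois ℚ E ∧
      IsGalois M E ∧ s ^ 2 = (l : E) ∧ Module.finrank M E = 2 ∧
      Module.finrank ℚ E = 2 * Module.finrank ℚ M ∧ Nonempty (E →+* ℝ) ∧
      ∀ x : E, ∃ a b : M, x = algebraMap M E a + algebraMap M E b * s := by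
  have hl0 : (l : M) ≠ 0 := Nat.cast_ne_zero.2 hl.ne_zero
  set c : M := (l : M) with hc
  set q : M[X] := X ^ 2 - C c with hq
  have hqm : q.Monic := monic_X_pow_sub_C c two_ne_zero
  have hqd : q.natDegree = 2 := natDegree_X_pow_sub_C
  have hqi : Irreducible q := X_pow_sub_C_irreducible_of_prime Nat.prime_two fun t ht =>
    hirr t ht
  haveI : Fact (Irreducible q) := ⟨hqi⟩
  let E := AdjoinRoot q
  have hfin1 : FiniteDimensional M E := hqm.finite_adjoinRoot
  have hfin : FiniteDimensional ℚ E := FiniteDimensional.trans ℚ M E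
  haveI : CharZero E := charZero_of_injective_algebraMap (algebraMap M E).injective
  haveI : NumberField E := ⟨⟩
  have hroot2 : (AdjoinRoot.root q) ^ 2 = AdjoinRoot.of q c := root_sq q c hq
  have hsplit : IsSplittingField M E q := by
    refine ⟨?_, ?_⟩
    · have e : q.map (algebraMap M E) = (X - C (AdjoinRoot.root q)) * (X - C (-AdjoinRoot.root q)) :=
        map_q q c hq
      rw [e]
      exact (Splits.X_sub_C _).mul (Splits.X_sub_C _)
    · rw [eq_top_iff, ← AdjoinRoot.adjoinRoot_eq_top (f := q)]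
      refine Algebra.adjoin_mono ?_
      intro x hx
      rw [Set.mem_singleton_iff] at hx
      rw [hx, mem_rootSet]
      refine ⟨hqi.ne_zero, ?_⟩
      rw [AdjoinRoot.aeval_eq]
      exact AdjoinRoot.mk_self
  have hsep : q.Separable := separable_X_pow_sub_C c (by norm_num) hl0
  have hgal1 : IsGalois M E := IsGalois.of_separable_splitting_field hsep
  obtain ⟨f', hfs, hf⟩ := IsGalois.is_separable_splitting_field ℚ M
  have hqK : q = (X ^ 2 - C (l : ℚ) : ℚ[X]).map (algebraMap ℚ M) := by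
    rw [hq, Polynomial.map_sub, Polynomial.map_pow, map_X, map_C, hc, map_natCast (algebraMap ℚ M) l]
  haveI : IsSplittingField M E ((X ^ 2 - C (l : ℚ) : ℚ[X]).map (algebraMap ℚ M)) := by
    rw [← hqK]
    exact hsplit
  have hmul : IsSplittingField ℚ E (f' * (X ^ 2 - C (l : ℚ))) :=
    IsSplittingField.mul (K := M) E f' _ hfs.ne_zero (monic_X_pow_sub_C _ two_ne_zero).ne_zero
  haveI : Normal ℚ E := Normal.of_isSplittingField (f' * (X ^ 2 - C (l : ℚ)))
  have hgal : IsGalois ℚ E := {}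
  have hgen : ∀ x : E, ∃ a b : M, x = algebraMap M E a + algebraMap M E b * AdjoinRoot.root q := by
    intro x
    obtain ⟨u, rfl⟩ := AdjoinRoot.mk_surjective x
    have h3 : AdjoinRoot.mk q u = AdjoinRoot.mk q (u %ₘ q) := by
      rw [AdjoinRoot.mk_eq_mk]
      exact ⟨u /ₘ q, by rw [sub_eq_iff_eq_add']; exact (modByMonic_add_div u q).symm⟩
    have h4 : (u %ₘ q).natDegree ≤ 1 := by
      have h5 := natDegree_modByMonic_lt u hqm (by
        intro h
        rw [h, natDegree_one] at hqd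
        omega)
      omega
    obtain ⟨a, b, hab⟩ := exists_eq_X_add_C_of_natDegree_le_one h4
    refine ⟨b, a, ?_⟩
    rw [h3, hab, map_add, map_mul, AdjoinRoot.mk_C, AdjoinRoot.mk_C, AdjoinRoot.mk_X, add_comm]
    rfl
  have hrk : Module.finrank M E = 2 := by
    rw [(AdjoinRoot.powerBasis hqi.ne_zero).finrank, AdjoinRoot.powerBasis_dim, hqd]
  have hrk2 : Module.finrank ℚ E = 2 * Module.finrank ℚ M := by
    rw [← hrk, mul_comm, Module.finrank_mul_finrank]
  refine ⟨E, inferInstance, inferInstance, inferInstance, AdjoinRoot.root q, hgal, hgal1, ?_, hrk,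
    hrk2, ?_, hgen⟩
  · rw [hroot2, hc, map_natCast]
  · obtain ⟨φ₀⟩ := hreal
    have e : eval₂ φ₀ (Real.sqrt l) q = 0 := by
      rw [hq, eval₂_sub, eval₂_pow, eval₂_X, eval₂_C, hc, map_natCast,
        Real.sq_sqrt (Nat.cast_nonneg l), sub_self]
    exact ⟨AdjoinRoot.lift φ₀ (Real.sqrt l) e⟩

theorem main : S_MANY → S_TOW := by
  intro hmany a b hD hroot M _ _ hadm
  obtain ⟨B, hB⟩ := bound M
  obtain ⟨l, hl, hNl, hl8, hT, hirr⟩ := hmany a b hD hroot
    ((Finset.range ((dd a b).natAbs + 1)).filter fun p => p.Prime ∧ (p : ℤ) ^ 2 ∣ dd a b)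
    (max B (dd a b).natAbs)
  obtain ⟨k, hk⟩ : ∃ k : ℕ, l = 8 * k + 1 := ⟨l / 8, by omega⟩
  have hBl : B < l := lt_of_le_of_lt (le_max_left _ _) hNl
  have hDl : (dd a b).natAbs < l := lt_of_le_of_lt (le_max_right _ _) hNl
  haveI := hadm.galois
  obtain ⟨E, _, _, _, s, hgal, hgal1, hs, hrk, hrk2, hreal, hgen⟩ := adj M hl
    (fun t ht => hB l hl hBl (ram_of_sq hl ht)) hadm.real
  have hs0 : s ≠ 0 := by
    rintro rfl
    rw [zero_pow two_ne_zero] at hs
    exact hl.ne_zero (by exact_mod_cast hs.symm)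
  have hpm : ∀ σ : E ≃ₐ[M] E, σ = 1 ∨ σ s = -s := by
    intro σ
    have h1 : (σ s - s) * (σ s + s) = 0 := by
      have : (σ s - s) * (σ s + s) = σ (s ^ 2) - s ^ 2 := by
        rw [map_pow]
        ring
      rw [this, hs, map_natCast, sub_self]
    rcases mul_eq_zero.1 h1 with h2 | h2
    · left
      apply AlgEquiv.ext
      intro x
      obtain ⟨a, b, rfl⟩ := hgen x
      rw [map_add, map_mul, AlgEquiv.commutes, AlgEquiv.commutes, sub_eq_zero.1 h2]
      rfl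
    · right
      linear_combination h2
  have hcard : Nat.card (E ≃ₐ[M] E) = 2 := by
    rw [IsGalois.card_aut_eq_finrank, hrk]
  haveI : Finite (E ≃ₐ[M] E) := Nat.finite_of_card_ne_zero (by rw [hcard]; norm_num)
  haveI : Nontrivial (E ≃ₐ[M] E) := by
    rw [← Finite.one_lt_card_iff_nontrivial, hcard]
    norm_num
  obtain ⟨τ, hτ⟩ := exists_ne (1 : E ≃ₐ[M] E)
  have hτs : τ s = -s := (hpm τ).resolve_left hτ
  have hτ2 : ∀ x, τ (τ x) = x := by
    intro x
    obtain ⟨a, b, rfl⟩ := hgen x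
    simp only [map_add, map_mul, AlgEquiv.commutes, hτs, map_neg, neg_neg]
  have hfix : ∀ x : E, τ x = x → ∃ y : M, algebraMap M E y = x := by
    intro x hx
    obtain ⟨a, b, rfl⟩ := hgen x
    simp only [map_add, map_mul, AlgEquiv.commutes, hτs] at hx
    have h1 : 2 * (algebraMap M E b * s) = 0 := by linear_combination -hx
    have h2 : algebraMap M E b * s = 0 := by
      rcases mul_eq_zero.1 h1 with h | h
      · exact absurd h two_ne_zero
      · exact h
    exact ⟨a, by rw [h2, add_zero]⟩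
  have hsint : IsIntegral ℤ s := ⟨X ^ 2 - C (l : ℤ), monic_X_pow_sub_C _ two_ne_zero, by simp [hs]⟩
  obtain ⟨S, hS⟩ : ∃ S : 𝓞 E, algebraMap (𝓞 E) E S = s := ⟨⟨s, hsint⟩, rfl⟩
  have hS2 : S ^ 2 = (l : 𝓞 E) := by
    apply RingOfIntegers.coe_injective
    rw [map_pow, hS, hs, map_natCast]
  obtain ⟨W, hW⟩ : ∃ W : 𝓞 E, 2 * W = 1 + S := by
    have h1 : IsIntegral ℤ ((1 + s) / 2) := by
      refine ⟨X ^ 2 - X - C (2 * k : ℤ), by monicity!, ?_⟩
      have hsk : s ^ 2 = 8 * (k : E) + 1 := by rw [hs, hk]; push_cast; ring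
      simp
      field_simp
      linear_combination hsk
    obtain ⟨W, hW⟩ : ∃ W : 𝓞 E, algebraMap (𝓞 E) E W = (1 + s) / 2 := ⟨⟨_, h1⟩, rfl⟩
    refine ⟨W, ?_⟩
    apply RingOfIntegers.coe_injective
    rw [map_mul, map_ofNat, map_add, map_one, hS, hW]
    field_simp
  have hSE : (S : E) = s := hS
  have hpmS : ∀ σ : E ≃ₐ[M] E, σ = 1 ∨ σ (S : E) = -S := fun σ => by
    rw [hSE]
    exact hpm σ
  refine ⟨E, inferInstance, inferInstance, ⟨algebraMap M E⟩, hrk2, hgal, ?_, ?_, ?_, ?_⟩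
  · obtain ⟨n, hn⟩ := hadm.degree
    exact ⟨n + 1, by rw [hrk2, hn, pow_succ, mul_comm]⟩
  · exact hreal
  · intro p hp hbad
    have hpl : p ≠ l := by
      rintro rfl
      rcases hbad with h | h
      · rw [h] at hl8
        omega
      · have h1 : (p : ℤ) ∣ dd a b := (dvd_pow_self _ two_ne_zero).trans h
        have h2 := Int.natAbs_dvd_natAbs.2 h1
        rw [Int.natAbs_natCast] at h2
        exact absurd (Nat.le_of_dvd (Int.natAbs_pos.2 hD) h2) (not_le.2 hDl)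
    obtain ⟨z, hz⟩ : ∃ z : ℤ, (p : ℤ) ∣ z ^ 2 - l := by
      by_cases hp2 : p = 2
      · refine ⟨1, ?_⟩
        rw [hp2, hk]
        push_cast
        exact ⟨-(4 * k), by ring⟩
      · have h := hbad.resolve_left hp2
        refine hT p ?_ hp
        rw [Finset.mem_filter, Finset.mem_range]
        refine ⟨?_, hp, h⟩
        have h1 : (p : ℤ) ∣ dd a b := (dvd_pow_self _ two_ne_zero).trans h
        have h2 := Int.natAbs_dvd_natAbs.2 h1
        rw [Int.natAbs_natCast] at h2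
        exact Nat.lt_succ_of_le (Nat.le_of_dvd (Int.natAbs_pos.2 hD) h2)
    exact splits_of (M := M) hl hk S W hS2 hW hpmS τ (by rw [hSE]; exact hτs) hτ2 hfix hp hpl hz
      (hadm.split p hp hbad)
  · intro p hp hram
    by_cases hpl : p = l
    · rw [hpl]
      exact hirr
    · exact hadm.ram p hp (ram_of (M := M) hl hk S W hS2 hW hpmS hp hpl hram)

end Pool.Agent.H29C.TOW

namespace Pool.Agent.H29C

theorem t_TOW (h : S_MANY) : S_TOW := TOW.main h

end Pool.Agent.H29C
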