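import Pool.Agent.H29C.Stm2
import Pool.Agent.H29C.ALLM
import Pool.Agent.H29C.MANY
import Pool.Agent.H29C.TOW
import Pool.Agent.H29C.GDC
import Pool.Agent.H29C.HCT
import Pool.Agent.H29C.LFP
import Pool.Agent.H29C.LFR
import Pool.Agent.H29C.SQ0
import Pool.Agent.H29A.TWC

/-!
# Project ALL, part 3: the pieces together
-/

set_option autoImplicit false
set_option linter.all false

namespace Pool.Agent.H29C

/-- There are many admissible primes. -/
theorem many : S_MANY := t_MANY

/-- The towers of admissible fields. -/
theorem tow : S_TOW := t_TOW t_MANY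

/-- From `Sel_2(E/ℚ) = 0` to all the admissible twists and fields. -/
theorem allm : S_ALLM := t_ALLM t_SQ0 (t_HCT t_LFP t_LFR t_GDC Pool.Agent.H29A.t_TWC)

end Pool.Agent.H29C
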