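import Pool.Agent.H30T.InfA

/-!
# Project ALL part 3, piece MANY: infinitely many primes `l`, fourth powers modulo `m`, modulo which the cubic is
irreducible
-/

set_option autoImplicit false
set_option linter.all false

open Polynomial IsDedekindDomain NumberField
open scoped Classical

namespace Pool.Agent.H29C.ManyA

open Pool.Agent.W401.Cheb
open Pool.Agent.H30T.ResA (exists_large frob_pow separable_of_discr)
open Pool.Agent.H30T.InfP (exists_closure prod_rootSet irred_part)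

theorem perm3 {R : Type} [Fintype R] (hR : Fintype.card R = 3) (τ : Equiv.Perm R) (hτ : orderOf τ = 3) :
    ∃ s : ℕ → R, (∀ j, τ (s j) = s (j + 1)) ∧
      (∀ i < 3, ∀ j < 3, s i = s j → i = j) ∧ (∀ r, ∃ j < 3, s j = r) := by
  have hcyc : τ.IsCycle := Equiv.Perm.isCycle_of_prime_order'' (by rw [hR]; norm_num) (by rw [hτ, hR])
  have hsup : τ.support = Finset.univ := by
    rw [← Finset.card_eq_iff_eq_univ, ← hcyc.orderOf, hτ, hR]
  have hne : ∀ x, τ x ≠ x := by
    intro x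
    rw [← Equiv.Perm.mem_support, hsup]
    exact Finset.mem_univ _
  have : Nonempty R := Fintype.card_pos_iff.1 (by rw [hR]; norm_num)
  obtain ⟨r0⟩ := this
  have h3 : ∀ r, ∃ j < 3, (τ ^ j) r0 = r := by
    intro r
    obtain ⟨i, hi⟩ := hcyc.exists_pow_eq (hne r0) (hne r)
    refine ⟨i % 3, Nat.mod_lt _ (by norm_num), ?_⟩
    rw [← hτ, pow_mod_orderOf, hi]
  refine ⟨fun j => (τ ^ j) r0, ?_, ?_, h3⟩
  · intro j
    show τ ((τ ^ j) r0) = (τ ^ (j + 1)) r0
    rw [pow_succ']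
    rfl
  · have hs : Function.Surjective (fun j : Fin 3 => (τ ^ (j : ℕ)) r0) := by
      intro r
      obtain ⟨j, hj, hjr⟩ := h3 r
      exact ⟨⟨j, hj⟩, hjr⟩
    have hb := (Fintype.bijective_iff_surjective_and_card (fun j : Fin 3 => (τ ^ (j : ℕ)) r0)).2
      ⟨hs, by rw [hR]; rfl⟩
    intro i hi j hj hij
    have h5 : (⟨i, hi⟩ : Fin 3) = ⟨j, hj⟩ := hb.1 hij
    exact congrArg Fin.val h5

/-- infinitely many primes `l`, fourth powers modulo `m`, modulo which `f` is irreducible -/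
theorem cheb3 (f : ℤ[X]) (hmon : f.Monic) (hdeg : f.natDegree = 3)
    (hirr : Irreducible (f.map (Int.castRingHom ℚ)))
    (m B : ℕ) (hm : m ≠ 0) : ∃ l k : ℕ, l.Prime ∧ B < l ∧ l ≡ k ^ 4 [MOD m] ∧
      Irreducible (f.map (Int.castRingHom (ZMod l))) := by
  have hinjQ : Function.Injective (Int.castRingHom ℚ) := Int.cast_injective
  set p : ℚ[X] := f.map (Int.castRingHom ℚ) with hp
  have hpmon : p.Monic := hmon.map _
  have hsep : p.Separable := hirr.separable
  have hpdeg : p.natDegree = 3 := by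
    rw [hp, natDegree_map_eq_of_injective hinjQ, hdeg]
  obtain ⟨N, iF, iN, iG, ζ, hζ, hsp⟩ := exists_closure m hm p hpmon.ne_zero
  have : Fact ((p.map (algebraMap ℚ N)).Splits) := ⟨hsp⟩
  have h3card : 3 ∣ Nat.card p.Gal := by
    have := Gal.prime_degree_dvd_card hirr (by rw [hpdeg]; norm_num)
    rwa [hpdeg] at this
  have : Fact (Nat.Prime 3) := ⟨by norm_num⟩
  obtain ⟨τ, hτ⟩ := exists_prime_orderOf_dvd_card' 3 h3card
  obtain ⟨σ₀, hσ₀⟩ := Gal.restrict_surjective p N τ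
  obtain ⟨hcard, hprod⟩ := prod_rootSet (N := N) p hpmon hsep hsp
  rw [hpdeg] at hcard
  have hfN : f.map (Int.castRingHom N) = ∏ s : p.rootSet N, (X - C (s : N)) := by
    rw [← hprod, hp, Polynomial.map_map]
    congr 1
    exact RingHom.ext_int _ _
  have hπ : orderOf (Gal.galActionHom p N τ) = 3 := by
    rw [orderOf_injective _ (Gal.galActionHom_injective p N), hτ]
  obtain ⟨s, hs1, hs2, hs3⟩ := perm3 hcard (Gal.galActionHom p N τ) hπ
  set σ : N ≃ₐ[ℚ] N := σ₀ ^ 4 with hσ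
  have hσr : Gal.restrict p N σ = τ := by
    rw [hσ, map_pow, hσ₀, show 4 = 3 + 1 from rfl, pow_succ, ← hτ, pow_orderOf_eq_one, one_mul]
  -- the roots of unity
  have hpow : ∀ a : N ≃ₐ[ℚ] N, ∃ k : ℕ, ∀ z : N, z ^ m = 1 → a z = z ^ k := by
    intro a
    have h1 : (a ζ) ^ m = 1 := by rw [← map_pow, hζ.pow_eq_one, map_one]
    haveI : NeZero m := ⟨hm⟩
    obtain ⟨k, _, hk⟩ := hζ.eq_pow_of_pow_eq_one h1
    refine ⟨k, fun z hz => ?_⟩
    obtain ⟨j, _, hj⟩ := hζ.eq_pow_of_pow_eq_one hz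
    rw [← hj, map_pow, ← hk, ← pow_mul, ← pow_mul, mul_comm]
  obtain ⟨k, hk⟩ := hpow σ₀
  have hσζ : σ ζ = ζ ^ (k ^ 4) := by
    have hz := hζ.pow_eq_one
    have h1 : σ₀ ζ = ζ ^ k := hk ζ hz
    show σ₀ (σ₀ (σ₀ (σ₀ ζ))) = _
    have h2 : ∀ e : ℕ, σ₀ (ζ ^ e) = ζ ^ (k * e) := by
      intro e
      rw [map_pow, h1, ← pow_mul]
    rw [h1, h2, h2, h2]
    congr 1
    ring
  -- the roots
  have hσs : ∀ j, σ (s j : N) = (s (j + 1) : N) := by
    intro j
    rw [← hs1 j, ← hσr, Gal.galActionHom_restrict]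
  have hprodN : f.map (Int.castRingHom N) = ∏ j ∈ Finset.range (3), (X - C (s j : N)) := by
    rw [hfN]
    symm
    refine Finset.prod_bij (fun j _ => s j) (fun j _ => Finset.mem_univ _) ?_ ?_ (fun j _ => rfl)
    · intro i hi j hj hij
      exact hs2 i (Finset.mem_range.1 hi) j (Finset.mem_range.1 hj) hij
    · intro r _
      obtain ⟨j, hj, hjr⟩ := hs3 r
      exact ⟨j, Finset.mem_range.2 hj, hjr⟩
  have hrint : ∀ j, IsIntegral ℤ (s j : N) := by
    intro j
    refine ⟨f, hmon, ?_⟩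
    have h1 := (s j).2
    rw [mem_rootSet] at h1
    have h2 := h1.2
    have h3 := aeval_map_algebraMap ℚ (s j : N) f
    exact h3.symm.trans h2
  obtain ⟨t, ht⟩ : ∃ t : ℕ → 𝓞 N, ∀ j, algebraMap (𝓞 N) N (t j) = s j := ⟨fun j => ⟨s j, hrint j⟩, fun j => rfl⟩
  have hζint : IsIntegral ℤ ζ := hζ.isIntegral (Nat.pos_of_ne_zero hm)
  obtain ⟨ζ', hζ'⟩ : ∃ ζ' : 𝓞 N, algebraMap (𝓞 N) N ζ' = ζ := ⟨⟨ζ, hζint⟩, rfl⟩
  have hcs : ∀ (τ : Gal(N/ℚ)) (x : 𝓞 N), algebraMap (𝓞 N) N (τ • x) = τ (algebraMap (𝓞 N) N x) :=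
    fun τ x => rfl
  have hσt : ∀ j, σ • t j = t (j + 1) := by
    intro j
    apply RingOfIntegers.coe_injective
    rw [hcs, ht, ht, hσs]
  have hσt' : ∀ j, (σ ^ j) • t 0 = t j := by
    intro j
    induction j with
    | zero => rw [pow_zero, one_smul]
    | succ j ih => rw [pow_succ', mul_smul, ih, hσt]
  set E : 𝓞 N := (m : 𝓞 N) * ∏ i ∈ Finset.range (3), ∏ j ∈ Finset.range (3),
      (if i = j then 1 else t i - t j) with hE
  have hE0 : E ≠ 0 := by
    rw [hE]
    refine mul_ne_zero (Nat.cast_ne_zero.2 hm) ?_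
    rw [Finset.prod_ne_zero_iff]
    intro i hi
    rw [Finset.prod_ne_zero_iff]
    intro j hj
    split_ifs with hij
    · exact one_ne_zero
    · intro h
      apply hij
      have h1 := congrArg (algebraMap (𝓞 N) N) (sub_eq_zero.1 h)
      rw [ht, ht] at h1
      exact hs2 i (Finset.mem_range.1 hi) j (Finset.mem_range.1 hj) (Subtype.ext h1)
  obtain ⟨M, hM⟩ := exists_large E hE0
  obtain ⟨q, ⟨hq, hxp⟩, hqgt⟩ := (infinite_frob N σ).exists_gt (max (max M B) 2)
  simp only [max_lt_iff] at hqgt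
  obtain ⟨⟨hqM, hqB⟩, hq2⟩ := hqgt
  have : Fact q.Prime := ⟨hq⟩
  obtain ⟨φ, hφ⟩ : ∃ φ : 𝓞 N →+* AlgebraicClosure (ZMod q), HasFrob q φ σ := by
    unfold xp at hxp
    rw [dif_pos hq] at hxp
    by_contra h
    push Not at h
    apply hxp
    rw [Nat.card_eq_zero]
    left
    exact ⟨fun x => h x.1 x.2⟩
  have hφE : φ E ≠ 0 := hM q hqM _ φ
  rw [hE, map_mul, map_natCast, map_prod] at hφE
  have hmΩ := left_ne_zero_of_mul hφE
  have hu2 := right_ne_zero_of_mul hφE
  rw [Finset.prod_ne_zero_iff] at hu2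
  have hv1 : ∀ j, φ (t j) = φ (t 0) ^ (q ^ j) := fun j => by
    rw [← hσt' j]
    exact frob_pow hφ j _
  have hv2 : ∀ i < 3, ∀ j < 3, φ (t 0) ^ (q ^ i) = φ (t 0) ^ (q ^ j) → i = j := by
    intro i hi j hj hij
    by_contra hne
    have h1 := hu2 i (Finset.mem_range.2 hi)
    rw [map_prod, Finset.prod_ne_zero_iff] at h1
    have h2 := h1 j (Finset.mem_range.2 hj)
    rw [if_neg hne, map_sub, hv1 i, hv1 j, hij, sub_self] at h2
    exact h2 rfl
  -- the roots of unity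
  have hmod : q ≡ k ^ 4 [MOD m] := by
    have h1 : φ ζ' ^ q = φ ζ' ^ (k ^ 4) := by
      rw [← hφ, ← map_pow]
      congr 1
      apply RingOfIntegers.coe_injective
      show algebraMap (𝓞 N) N (σ • ζ') = algebraMap (𝓞 N) N (ζ' ^ (k ^ 4))
      rw [hcs, hζ', hσζ, map_pow, hζ']
    have h2 : IsPrimitiveRoot ζ' m := by
      rw [← hζ'] at hζ
      exact hζ.of_map_of_injective (RingOfIntegers.coe_injective)
    have h3 := h2.isRoot_cyclotomic (Nat.pos_of_ne_zero hm)
    have h4 : (cyclotomic m (AlgebraicClosure (ZMod q))).IsRoot (φ ζ') := by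
      rw [← map_cyclotomic m φ]
      exact h3.map
    have : NeZero ((m : ℕ) : AlgebraicClosure (ZMod q)) := ⟨hmΩ⟩
    rw [isRoot_cyclotomic_iff] at h4
    obtain ⟨u, hu⟩ := h4.isUnit hm
    rw [← hu] at h4 h1
    rw [IsPrimitiveRoot.coe_units_iff] at h4
    have h5 : u ^ q = u ^ (k ^ 4) := Units.ext (by push_cast; exact h1)
    rw [pow_eq_pow_iff_modEq, ← h4.eq_orderOf] at h5
    exact h5
  -- the factorization
  have hfO : f.map (Int.castRingHom (𝓞 N)) = ∏ j ∈ Finset.range (3), (X - C (t j)) := by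
    apply Polynomial.map_injective (algebraMap (𝓞 N) N) RingOfIntegers.coe_injective
    rw [Polynomial.map_map, Polynomial.map_prod]
    simp only [Polynomial.map_sub, map_X, map_C, ht]
    rw [← hprodN]
    exact congrArg (fun r => Polynomial.map r f) (Subsingleton.elim _ _)
  have hfΩ : f.map (Int.castRingHom (AlgebraicClosure (ZMod q))) =
      ∏ j ∈ Finset.range (3), (X - C (φ (t 0) ^ (q ^ j))) := by
    have h1 := congrArg (Polynomial.map φ) hfO
    rw [Polynomial.map_map, Polynomial.map_prod] at h1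
    simp only [Polynomial.map_sub, map_X, map_C] at h1
    rw [Finset.prod_congr rfl fun j _ => by rw [hv1 j]] at h1
    rw [← h1]
    exact congrArg (fun r => Polynomial.map r f) (Subsingleton.elim _ _)
  exact ⟨q, k, hq, hqB, hmod, irred_part (3) q f hmon hdeg (φ (t 0)) hfΩ hv2 (by omega)⟩

end Pool.Agent.H29C.ManyA
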