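import Pool.Agent.H29C.Stm3
import Pool.Agent.Helper29K.Spl
import Pool.Agent.H30EV.Fin

/-!
# Project ALL: piece PRD (helper95)

The primes which are `1` modulo `8` and modulo `W` and split completely in a Galois number field have a
divergent sum of reciprocals.
-/

set_option autoImplicit false
set_option linter.all false

open IsDedekindDomain NumberField Filter Polynomial
open scoped Classical

namespace Pool.Agent.H29C

namespace PRD

/-- `X ^ W - 1` splits modulo `q` -/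
theorem modW {q W : ℕ} (hq : q.Prime) (hW : 0 < W) (hqW : ¬ q ∣ W)
    (h : ((X ^ W - 1 : ℤ[X]).map (Int.castRingHom (ZMod q))).Splits) : q % W = 1 % W := by
  haveI : Fact q.Prime := ⟨hq⟩
  haveI : NeZero W := ⟨hW.ne'⟩
  have e : (X ^ W - 1 : ℤ[X]).map (Int.castRingHom (ZMod q)) = X ^ W - C 1 := by simp
  rw [e] at h
  have hWq : ((W : ℕ) : ZMod q) ≠ 0 := fun h0 => hqW ((ZMod.natCast_eq_zero_iff W q).1 h0)
  have hsep : (X ^ W - C (1 : ZMod q)).Separable := separable_X_pow_sub_C 1 hWq one_ne_zero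
  have hcard : Multiset.card (X ^ W - C (1 : ZMod q)).roots = W := by
    rw [splits_iff_card_roots.1 h, natDegree_X_pow_sub_C]
  have hnodup := nodup_roots hsep
  have h1 : Nat.card (rootsOfUnity W (ZMod q)) = W := by
    rw [Nat.card_congr (rootsOfUnityEquivNthRoots (ZMod q) W)]
    have e2 : ∀ x : ZMod q, x ∈ nthRoots W (1 : ZMod q) ↔
        x ∈ (X ^ W - C (1 : ZMod q)).roots.toFinset := by
      intro x
      rw [Multiset.mem_toFinset]
      rfl
    rw [Nat.card_congr (Equiv.subtypeEquivRight e2), Nat.card_eq_fintype_card, Fintype.card_coe,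
      Multiset.toFinset_card_of_nodup hnodup, hcard]
  have h2 : W ∣ q - 1 := by
    have h3 := Subgroup.card_subgroup_dvd_card (rootsOfUnity W (ZMod q))
    rw [h1, Nat.card_eq_fintype_card, ZMod.card_units_eq_totient, Nat.totient_prime hq] at h3
    exact h3
  exact ((Nat.modEq_iff_dvd' hq.one_lt.le).2 h2).symm

open Pool.Agent.Helper29K Pool.Agent.N922.PQ Pool.Agent.N40.PQ Pool.Agent.TH888.B1

theorem div_W (g : ℤ[X]) (hg : g.Monic) (W : ℕ) (hW : 0 < W) (T : Set ℕ) (hT : T.Finite)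
    (hTW : ∀ q ≤ W, q ∈ T) :
    ¬ Summable (fun n : ℕ => {p : ℕ | p.Prime ∧ p % 8 = 1 ∧ SplitMod (p : ℤ) g ∧ p % W = 1 % W ∧
      p ∉ T}.indicator (fun n : ℕ => (1 : ℝ) / n) n) := by
  -- the splitting field
  set f : ℤ[X] := g * ((X ^ 4 + 1) * (X ^ W - 1)) with hf
  have h41 : (X ^ 4 + 1 : ℤ[X]).Monic := by monicity!
  have hW1 : (X ^ W - 1 : ℤ[X]).Monic := by
    simpa using monic_X_pow_sub_C (1 : ℤ) hW.ne'
  have hfm : f.Monic := hg.mul (h41.mul hW1)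
  have hNN : NumberField (f.map (algebraMap ℤ ℚ)).SplittingField :=
    { to_charZero := charZero_of_injective_algebraMap
        (algebraMap ℚ (f.map (algebraMap ℤ ℚ)).SplittingField).injective
      to_finiteDimensional := inferInstance }
  have hfs : (f.map (algebraMap ℤ (f.map (algebraMap ℤ ℚ)).SplittingField)).Splits := by
    have h1 := SplittingField.splits (f.map (algebraMap ℤ ℚ))
    rw [Polynomial.map_map] at h1
    convert h1 using 2
    exact RingHom.ext_int _ _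
  obtain ⟨η, G, δ', hGG, hdG⟩ := gen (f.map (algebraMap ℤ ℚ)).SplittingField
  obtain ⟨Δ, hΔ0, hΔ⟩ := claim1 η G δ' hGG hdG f hfm hfs
  have hg0 : G.natDegree ≠ 0 := by
    rw [hdG]; exact Module.finrank_pos.ne'
  have hgood : ∀ q : ℕ, q.Prime → ¬ (q : ℤ) ∣ 2 * Δ → q ∉ T → ∀ c : ℤ, (q : ℤ) ∣ G.eval c →
      SplitMod (q : ℤ) g ∧ q % 8 = 1 ∧ q % W = 1 % W := by
    intro q hq hqΔ hqT c hc
    have : Fact q.Prime := ⟨hq⟩
    have h1 := hΔ q hq (fun h => hqΔ (h.mul_left _)) c hc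
    rw [hf, Polynomial.map_mul, Polynomial.map_mul] at h1
    have hne1 : g.map (Int.castRingHom (ZMod q)) ≠ 0 := (hg.map _).ne_zero
    have hne2 : (X ^ 4 + 1 : ℤ[X]).map (Int.castRingHom (ZMod q)) ≠ 0 := (h41.map _).ne_zero
    have hne3 : (X ^ W - 1 : ℤ[X]).map (Int.castRingHom (ZMod q)) ≠ 0 := (hW1.map _).ne_zero
    rw [splits_mul_iff hne1 (mul_ne_zero hne2 hne3), splits_mul_iff hne2 hne3] at h1
    refine ⟨splitMod_of_splits q hq g hg h1.1, mod8 hq ?_ h1.2.1, modW hq hW ?_ h1.2.2⟩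
    · rintro rfl
      exact hqΔ (dvd_mul_right _ _)
    · intro h
      exact hqT (hTW q (Nat.le_of_dvd hW h))
  have h1 := rootPrimes_diverges G (Nat.pos_of_ne_zero hg0)
  have h2Δ : 2 * Δ ≠ 0 := mul_ne_zero two_ne_zero hΔ0
  have hfin : ({p : ℕ | (p : ℤ) ∣ 2 * Δ} ∪ T).Finite := by
    refine Set.Finite.union ?_ hT
    apply (Set.finite_Icc 0 (2 * Δ).natAbs).subset
    intro p hp
    have hp' : (p : ℤ) ∣ 2 * Δ := hp
    rw [Int.natCast_dvd] at hp'
    exact ⟨Nat.zero_le _, Nat.le_of_dvd (Int.natAbs_pos.mpr h2Δ) hp'⟩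
  refine diverges_mono ?_ (diverges_diff hfin h1)
  rintro p ⟨⟨hp, x, hx⟩, hpn⟩
  have : Fact p.Prime := ⟨hp⟩
  rw [Set.mem_union, not_or] at hpn
  obtain ⟨c, rfl⟩ := ZMod.intCast_surjective x
  have hc : (p : ℤ) ∣ G.eval c := by
    rw [← ZMod.intCast_zmod_eq_zero_iff_dvd]
    have e : (c : ZMod p) = Int.castRingHom (ZMod p) c := rfl
    rw [e, eval_map, eval₂_at_apply] at hx
    exact hx
  obtain ⟨h3, h4, h5⟩ := hgood p hp hpn.1 hpn.2 c hc
  exact ⟨hp, h4, h3, h5, hpn.2⟩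

end PRD

open PRD Pool.Agent.Helper29K Pool.Agent.N922.PQ Pool.Agent.N40.PQ
open Pool.Agent.H30T (SplitsAt)
open Pool.Agent.H30EV (isPr_nat splits_of res_of_gen unr_of_gen)

theorem t_PRD : S_PRD := by
  intro M _ _ hgal W hW0 T Λ
  haveI := hgal
  obtain ⟨γ, g, δ, hG, hdg⟩ := gen M
  have hfin : ({p : ℕ | (p : ℤ) ∣ δ} ∪ ((T : Set ℕ) ∪ Set.Iic W)).Finite := by
    refine Set.Finite.union ?_ (T.finite_toSet.union (Set.finite_Iic W))
    refine (Set.finite_Iic δ.natAbs).subset fun p hp => ?_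
    have h1 : (p : ℤ) ∣ δ := hp
    exact Nat.le_of_dvd (Int.natAbs_pos.2 hG.ne) (Int.natCast_dvd.1 h1)
  obtain ⟨𝒬, h𝒬, hL⟩ := exists_large (div_W g hG.monic W (Nat.pos_of_ne_zero hW0) _ hfin
    (fun q hq => Or.inr (Or.inr hq))) Λ
  refine ⟨𝒬, fun Q hQ => ⟨(h𝒬 Q hQ).1, (h𝒬 Q hQ).2.1⟩, fun Q hQ => ⟨(h𝒬 Q hQ).2.2.2.1, ?_⟩,
    fun Q hQ => ?_, ?_, hL⟩
  · by_contra hlt
    exact (h𝒬 Q hQ).2.2.2.2 (Or.inr (Or.inr (not_lt.1 hlt)))
  · obtain ⟨h1, h2, h3, h4, h5⟩ := h𝒬 Q hQ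
    have hδ : ¬ (Q : ℤ) ∣ δ := fun h => h5 (Or.inl h)
    have h6 := splits_of h1 (unr_of_gen hG (isPr_nat h1) hδ)
      (res_of_gen hG (isPr_nat h1) hδ h3)
    intro w hw
    exact h6 w.asIdeal w.isPrime hw
  · rw [Finset.disjoint_left]
    intro Q hQ hQ'
    exact (h𝒬 Q hQ').2.2.2.2 (Or.inr (Or.inl (Finset.mem_coe.2 hQ)))

end Pool.Agent.H29C
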