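import Pool.Agent.H29B.Stm
import Pool.Agent.H30T.Sel
import Pool.Agent.H30T.Rat
import Pool.Agent.H30T.Stm2

/-!
# Project ALL, part 3 (helper29): from `Sel_2(E/ℚ) = 0` to ALL admissible extensions and twists

`E : y ^ 2 = x ^ 3 + a x + b` is an arbitrary elliptic curve over `ℚ` without a point of order two, `Sel_2(E/ℚ) = 0`. Then for
all `t` admissible for `E` (`AdmT`) and all number fields `M` admissible for `E^(t)` (real Galois extensions of `ℚ` of degree
a power of two in which `2` and the primes whose square divides the discriminant split completely, and such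
that the cubic is irreducible modulo the ramified primes) the group `E^(t)(M)` is finite of odd order and
`Ш(E^(t)/M)[2^∞] = 0`. File `Pool/Agent/H29C/<PIECE>.lean`, theorem `t_<PIECE> : S_<PIECE>`, namespace
`Pool.Agent.H29C`.
-/

set_option autoImplicit false
set_option linter.all false

open IsDedekindDomain NumberField Filter Polynomial
open scoped Classical

namespace Pool.Agent.H29C

open Pool.Agent.N922.PQ (IsCub Ov)
open Pool.Agent.R425.G (ng)
open Pool.Agent.N874.PP (Ev Sq1 U0)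
open Pool.Agent.N783.PF (fF SelZero)
open Pool.Agent.N783.PQ (LocIm)
open Pool.Agent.N874.JM (LocF)
open Pool.Agent.H30EV (curve twist SelmerTrivial ShaTrivial)
open Pool.Agent.H30GR (Sel2)
open Pool.Agent.H30T (Gd fO AdmissibleFor)
open Pool.Agent.H29A (CondAt S_TWC S_RAMC)
open Pool.Agent.H29B (PosAt S_LOWR S_CRB)

/-- The discriminant, up to sign. -/
def dd (a b : ℤ) : ℤ := 4 * a ^ 3 + 27 * b ^ 2

/-- The cubic. -/
noncomputable def cb (a b : ℤ) : ℤ[X] := X ^ 3 + C a * X + C b

/-- `t` is admissible for the curve `(a, b)`: positive, squarefree, `1` modulo `8`, a square modulo the odd primes whose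
square divides the discriminant, and the cubic has no zero modulo the prime divisors of `t`. -/
structure AdmT (a b t : ℤ) : Prop where
  pos : 0 < t
  sqf : Squarefree t
  m8 : t % 8 = 1
  sq : ∀ p : ℕ, p.Prime → (p : ℤ) ^ 2 ∣ dd a b → ∃ z : ℤ, (p : ℤ) ∣ z ^ 2 - t
  noz : ∀ p : ℕ, p.Prime → (p : ℤ) ∣ t → ∀ z : ℤ, ¬ (p : ℤ) ∣ z ^ 3 + a * z + b

/-- Piece LFP: from `LocF` (the class is that of a divisor, a product of the elements `(-1) ^ deg u * u(Θ)` with `u ∣ v ^ 2 - f`,
`u` monic and prime to `f`) to the class of a point. Let `F` be the completion at `v` (any field of characteristic zero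
would do). The set of the classes of points (functions `e ↦ z_e` on the roots `e` in the algebraic closure, equivariant:
there are `R ∈ E(F)` and `w_e`, fixed by the `σ` which fix `e`, with `z_e = w_e ^ 2 * dc e R`) is closed under products (`cond_mul` in
`H29A/MUL.lean`; the same proof for functions on the roots). So it is sufficient to show it for `(-1) ^ n u`, `n = deg u`; by
strong induction on `n`. We may suppose `deg v < n`. `n = 0`: the point `0`. `n = 1`: `u = X - x₀`, the point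
`(x₀, v(x₀))`. `n ≥ 2`: `v ^ 2 - f = c u u'' `, `u''` monic of degree `≤ n - 2` for `n ≥ 3`, and of degree `1`, `c = -1`, for `n = 2`. Let `g` be
the monic gcd of `u''` and `f` (for a common root `e` we have `v(e) = 0`, and `e` is a simple root of `v ^ 2 - f`, so a simple
root of `u''`), `u'' = g u₁`; `u₁` is monic, prime to `f`, divides `v ^ 2 - f`, and has a smaller degree, so the claim is
true for `u₁`. Let `T = 0` if `g = 1` or `g = f`, and the point of order two belonging to the root of `g`, respectively of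
`f / g`, if `deg g = 1, 2`. At the roots `e` of `f` with `g(e) ≠ 0`: `u(e) = v(e) ^ 2 / (c g(e) u₁(e))`; at the roots `e` of `g`:
`u(e) * c * (g / (X - e))(e) * u₁(e) = - f'(e)`. In both cases `(-1) ^ n u(e)` is `± c` (one sign for all `e`) times
`dc e T * (-1) ^ (deg u₁) u₁(e)` times a square. The norms (the product over the three roots; for `(-1) ^ n u(e)` it is a
square in `F`, the product of `f(x) = v(x) ^ 2` over the roots `x` of `u`) show that `± c` is a square in `F`. -/
def S_LFP : Prop := ∀ (a b : ℤ) (L : Type) [Field L] [NumberField L] (θ : L), IsCub a b θ →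
  dd a b ≠ 0 → ∀ h : ℚ[X], aeval θ h ≠ 0 → IsSquare (Algebra.norm ℚ (aeval θ h)) →
  ∀ v : HeightOneSpectrum (𝓞 ℚ), LocF (v.adicCompletion ℚ) (fF (fO (cb a b))) h →
    CondAt v a b θ (aeval θ h)

/-- Piece LFR: the same at the real place. Let `e₀ = φ θ` be the smallest real zero of the cubic `f`. For `u` monic, prime to `f`,
`u ∣ v ^ 2 - f`, the number `(-1) ^ n u(e₀)` is positive: it is the product of `(x - e₀)` over the real zeros `x` of `u`, times a
positive number; and `f(x) = v(x) ^ 2 > 0`, so `x > e₀`. And `h(e₀) ∏ (-1) ^ n u(e₀) = s(e₀) ^ 2`. -/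
def S_LFR : Prop := ∀ (a b : ℤ) (L : Type) [Field L] [NumberField L] (θ : L), IsCub a b θ →
  dd a b ≠ 0 → ∀ h : ℚ[X], aeval θ h ≠ 0 → ∀ σ : ℚ →+* ℝ,
  LocIm ℝ ((fF (fO (cb a b))).map σ) (h.map σ) → PosAt θ (aeval θ h)

/-- Piece SQ0. If `Sel_2(E/ℚ) = 0` then every element with square norm which satisfies all the local conditions is a
square. Otherwise `S_LOWR` (proved, `H29B/LOWR.lean`, `K = ℚ`, `W = ⟨0, 0, 0, a, b⟩` or `Wt a b 1`, `n = 2`, `z = ![1, α]`) gives two
different classes (`H30GR.sel_low`), and `Nat.card (Sel2 …) = 1`. (Compare `H29B/SLOWB.lean`; `S_CRB` for the real place.) -/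
def S_SQ0 : Prop := ∀ a b : ℤ, dd a b ≠ 0 → (∀ z : ℤ, z ^ 3 + a * z + b ≠ 0) →
  Nat.card (Sel2 (curve ℚ (a, b))) = 1 →
  ∀ (L : Type) [Field L] [NumberField L] (θ : L), IsCub a b θ → ∀ α : L, α ≠ 0 →
  IsSquare (Algebra.norm ℚ α) → (∀ v : HeightOneSpectrum (𝓞 ℚ), CondAt v a b θ α) → PosAt θ α →
  IsSquare α

/-- Piece GDC: the local condition at the good primes from the parity of the valuations: `ng v ∤ dd a b`: `cond_gd` (as in
`H29A/SLOWW.lean`, with `d = 1`); `ng v ∣ dd a b` (then `5 ≤ ng v`, because `3 ∣ dd a b` implies `9 ∣ dd a b`): `S_RAMC` with `d = 1`, and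
pass from `sh (Wt a b 1)`, `4 * θ` to `CondAt`. `t_GDC (hR : S_RAMC) : S_GDC` (or with `t_RAMC`). -/
def S_GDC : Prop := ∀ (a b : ℤ) (L : Type) [Field L] [NumberField L] (θ : L), IsCub a b θ →
  dd a b ≠ 0 → ∀ v : HeightOneSpectrum (𝓞 ℚ), ng v ≠ 2 → ¬ ((ng v : ℕ) : ℤ) ^ 2 ∣ dd a b →
  ∀ z : L, z ≠ 0 → IsSquare (Algebra.norm ℚ z) →
  (∀ 𝔓 : HeightOneSpectrum (𝓞 L), Ov ((ng v : ℕ) : ℤ) 𝔓 → Ev 𝔓 z) → CondAt v a b θ z

/-- The class of `α` satisfies the local conditions only if it is trivial. -/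
def Zero (a b : ℤ) {L : Type} [Field L] [NumberField L] (θ : L) : Prop :=
  ∀ α : L, α ≠ 0 → IsSquare (Algebra.norm ℚ α) →
    (∀ v : HeightOneSpectrum (𝓞 ℚ), CondAt v a b θ α) → PosAt θ α → IsSquare α

/-- Piece HCT: the classes of the twist by `t` in terms of `LocF` are trivial.
`t_HCT (hP : S_LFP) (hR : S_LFR) (hG : S_GDC) (hT : S_TWC) : S_HCT`. Let `α = h(t θ)`. `PosAt (t θ) α` by LFR, so `PosAt θ α`. Let
`p = ng v`. (1) `p ∣ t` (then `p` is odd and does not divide `dd a b`, because the cubic has no zero modulo `p`; `p = 3`: also): there is one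
prime `𝔓` over `p`, of degree three, and the valuation of `α` is even because the norm is a square; so GDC. (2) `p ∤ t`, and `p = 2` or
`p ^ 2 ∣ dd a b`: then `v` is not `Gd` for the twist, LFP gives `CondAt` for the twist, and TWC gives it for `(a, b)`; `t` is a square in
the completion (Hensel, compare `T_DSQ` in `H30T/Dsq.lean`). (3) otherwise `v` is `Gd` for the twist, so the valuations are even, and GDC
gives `CondAt` for `(a, b)`. (`Gd` for the twist: its discriminant is `± t ^ 6 dd a b`; `dsc_fO` in `H30T/Asm.lean` or so.) -/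
def S_HCT : Prop := ∀ (a b : ℤ) (L : Type) [Field L] [NumberField L] (θ : L), IsCub a b θ →
  dd a b ≠ 0 → Zero a b θ → ∀ t : ℤ, AdmT a b t →
  ∀ h : ℚ[X], aeval ((t : L) * θ) h ≠ 0 → IsSquare (Algebra.norm ℚ (aeval ((t : L) * θ) h)) →
    (∀ 𝔓 : HeightOneSpectrum (𝓞 L), (∀ w : HeightOneSpectrum (𝓞 ℚ),
      Pool.Agent.N783.PF.Ov w.asIdeal 𝔓 → Gd 1 (fO (cb (a * t ^ 2) (b * t ^ 3))) w) →
      Ev 𝔓 (aeval ((t : L) * θ) h)) →
    (∀ w : HeightOneSpectrum (𝓞 ℚ), ¬ Gd 1 (fO (cb (a * t ^ 2) (b * t ^ 3))) w →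
      LocF (w.adicCompletion ℚ) (fF (fO (cb (a * t ^ 2) (b * t ^ 3)))) h) →
    (∀ σ : ℚ →+* ℝ, LocIm ℝ ((fF (fO (cb (a * t ^ 2) (b * t ^ 3)))).map σ) (h.map σ)) →
    IsSquare (aeval ((t : L) * θ) h)

/-- Piece ALLM: the conclusion. `t_ALLM (h0 : S_SQ0) (hH : S_HCT) : S_ALLM`. The field `L` from `exists_cub` (see `irr_ff` in `H29A/Det.lean`).
Use `sel_M` (`H30T/Sel.lean`) with `F = ℚ`, `g = 1`, `J = S = ∅`, `f = fO (cb (a t²) (b t³))`, `W = 0`; its hypotheses `T_EXQ, …` are proved (see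
`H30T/Done.lean`), `GoodT … ∅` is trivial, `hadm` by `T_ADM` (proved in `H30T/Adm.lean`) with `J = ∅`, `c = 0`; see `H30T/Asm2.lean`, `main0`. Then
`ell` (`H30T/Ell.lean`). -/
def S_ALLM : Prop := ∀ a b : ℤ, dd a b ≠ 0 → (∀ z : ℤ, z ^ 3 + a * z + b ≠ 0) →
  Nat.card (Sel2 (curve ℚ (a, b))) = 1 → ∀ t : ℤ, AdmT a b t →
  ∀ (M : Type) [Field M] [NumberField M], AdmissibleFor M (cb (a * t ^ 2) (b * t ^ 3)) →
    Finite (curve M (twist (a, b) t)).toAffine.Point ∧
    Odd (Nat.card (curve M (twist (a, b) t)).toAffine.Point) ∧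
    SelmerTrivial (curve M (twist (a, b) t)) ∧ ShaTrivial (curve M (twist (a, b) t))

end Pool.Agent.H29C
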