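import Pool.Agent.H29C.Stm
import Pool.Agent.H30T.Defs7

/-!
# Project ALL, part 3 (helper29): there are many admissible twists and fields
-/

set_option autoImplicit false
set_option linter.all false

open IsDedekindDomain NumberField Filter Polynomial
open scoped Classical

namespace Pool.Agent.H29C

open Pool.Agent.H30T (AdmissibleE)

/-- Piece MANY. For every irreducible cubic `x ^ 3 + a x + b` and every finite set `T` of primes there are infinitely many primes `l`,
`1` modulo `8`, which are squares modulo the primes in `T` and modulo which the cubic is irreducible. Proof: let `N` be the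
normal closure of `ℚ(θ)` (group `S₃` or `C₃`) and `K = ℚ(i, √2, √p (p ∈ T))`, all in one Galois extension of `ℚ`; the group of the
compositum contains an element `σ` of order three modulo … : take an element `σ` whose restriction to `N` has order three and replace it by
`σ ^ 4`: it is trivial on `K` (a multiquadratic field) and has order three on `N` (`4 = 1` modulo `3`). A prime
whose Frobenius generates the same division as `σ ^ 4` (theorem of Frobenius, in the library: see `Helper29K/Resid.lean`, `Spl.lean`, `TH888.B1`
(`gen`), `H30T/Res*.lean`, `H30T/InfA.lean`, `InfB.lean`, `U_INF`, `U_CHEB`) has the properties. (By quadratic reciprocity `p` is a square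
modulo `l` if and only if `l` is a square modulo `p`, because `l = 1` modulo `4`.) Or use `U_INF` where the Galois group is
`S₃`, and the cyclic case separately. -/
def S_MANY : Prop := ∀ a b : ℤ, dd a b ≠ 0 → (∀ z : ℤ, z ^ 3 + a * z + b ≠ 0) →
  ∀ (T : Finset ℕ) (N : ℕ), ∃ l : ℕ, l.Prime ∧ N < l ∧ l % 8 = 1 ∧
    (∀ p ∈ T, p.Prime → ∃ z : ℤ, (p : ℤ) ∣ z ^ 2 - l) ∧ ∀ z : ℤ, ¬ (l : ℤ) ∣ z ^ 3 + a * z + b

/-- Piece TOW. Every admissible field `M` is contained in an admissible field `M' = M(√l)` of twice the degree; `l` is a
prime from MANY (`T` = the odd primes whose square divides `dd a b`) which is unramified in `M` (`N` large) .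
`t_TOW (h : S_MANY) : S_TOW`. `M(√l) / ℚ` is Galois and real; `2` and the primes `p`, `p ^ 2 ∣ dd a b`, split completely in `M` and in
`ℚ(√l)` (`l = 1` modulo `8`, a square modulo `p`), so in `M(√l)`; the primes which are ramified in `M(√l)` are `l` and the primes
which are ramified in `M`. (Compare `H30T/InfA.lean`, `InfB.lean` for `ℚ(√l)`, `Helper28H/FE/Quad2.lean` (`tower`) over function fields.) -/
def S_TOW : Prop := ∀ a b : ℤ, dd a b ≠ 0 → (∀ z : ℤ, z ^ 3 + a * z + b ≠ 0) →
  ∀ (M : Type) [Field M] [NumberField M], AdmissibleE M a b →
  ∃ (M' : Type) (_ : Field M') (_ : NumberField M'), Nonempty (M →+* M') ∧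
    Module.finrank ℚ M' = 2 * Module.finrank ℚ M ∧ AdmissibleE M' a b

end Pool.Agent.H29C
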