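import Pool.Agent.H29C.Stm2
import Pool.Agent.H30T.Defs7
import Pool.Agent.Helper29K.Bad

/-!
# Project ALL, part 3 (helper29): a number field given in advance
-/

set_option autoImplicit false
set_option linter.all false

open IsDedekindDomain NumberField Filter
open scoped Classical

namespace Pool.Agent.H29C

open Pool.Agent.H30T (AdmissibleE SplitsAt RamifiedAt)
open Pool.Agent.Helper29K (Pr8)

/-- Piece PRD: the primes which are `1` modulo `8` and modulo `W` and split completely in the Galois number field `M` have a
divergent sum of reciprocals. Compare `H29A/PRW.lean` (`M = ℚ`, Dirichlet series), `Helper29L/GivenK.lean` (`divP_sp`, from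
`Helper29K.spl_div`: for the generator of a number field `K` the primes in `SP g …` have a divergent sum; here `K` a number field which
contains `M` and the roots of unity of order `8 W`; the primes which split in it are `1` modulo `8 W` if they do not divide it) and `Chi.fieldFor_tw`
(there the primes in `SP g …` split completely). -/
def S_PRD : Prop := ∀ (M : Type) [Field M] [NumberField M], IsGalois ℚ M → ∀ (W : ℕ), W ≠ 0 →
  ∀ (T : Finset ℕ) (Λ : ℝ), ∃ 𝒬 : Finset ℕ, Pr8 𝒬 ∧ (∀ Q ∈ 𝒬, Q % W = 1 % W ∧ W < Q) ∧
    (∀ Q ∈ 𝒬, SplitsAt M Q) ∧ Disjoint T 𝒬 ∧ Λ ≤ ∑ Q ∈ 𝒬, (1 : ℝ) / Q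

end Pool.Agent.H29C
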