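import Pool.Agent.H29B.Thm
import Pool.Agent.H29B.Fin

/-!
# Project ALL (helper29): almost all curves, with levels in a given set of primes (as `H29A/Lev.lean`, `H29B/Thm.lean`)
-/

set_option autoImplicit false
set_option linter.all false

open IsDedekindDomain NumberField Finset Filter
open scoped Classical

namespace Pool.Agent.H29C

open Pool.Agent.H29A (GpW OKW PrW BxA mem_BxA FewA TypW tw box_of tw_inj lev_step S_MOMW S_DEN)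
open Pool.Agent.H29B (GB Cst exists_cst Pcs S_PLBB S_TAILB AllT rk_of)
open Pool.Agent.H30EV (curve twist)
open Pool.Agent.H30GR (Sel2)
open Pool.Agent.Helper29L (Gp PBad WZ S_LIN2 UnbSet FewSet Rk lv lv_sub StepOK SelDim hgt S_TV2 TV2k
  NiceP niceP_of fin_hgt tv2)
open Pool.Agent.Helper29K (SE Pr8 zS NR mem_zS card_zS prod_zS)

/-- The primes in `𝒟` which are `1` modulo `W` have a divergent sum of reciprocals. -/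
def PRD (𝒟 : Set ℕ) : Prop := ∀ (W : ℕ), W ≠ 0 → ∀ (T : Finset ℕ) (Λ : ℝ), ∃ 𝒬 : Finset ℕ, Pr8 𝒬 ∧
  (∀ Q ∈ 𝒬, Q % W = 1 % W ∧ W < Q) ∧ (∀ Q ∈ 𝒬, Q ∈ 𝒟) ∧ Disjoint T 𝒬 ∧ Λ ≤ ∑ Q ∈ 𝒬, (1 : ℝ) / Q

/-- finite sets of primes `1` modulo `W`, larger than `N`, outside a finite set, with a large sum of the
reciprocals -/
theorem prD {𝒟 : Set ℕ} (h : PRD 𝒟) {W : ℕ} (hW : OKW W) (N : ℕ) (T : Finset ℕ) (Λ : ℝ) :
    ∃ 𝒬 : Finset ℕ, PrW W N 𝒬 ∧ (∀ Q ∈ 𝒬, Q ∈ 𝒟) ∧ Disjoint T 𝒬 ∧ Λ ≤ ∑ Q ∈ 𝒬, (1 : ℝ) / Q := by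
  obtain ⟨𝒬, h1, h2, hD, h3, h4⟩ := h W hW.ne (T ∪ range (N + 1)) Λ
  refine ⟨𝒬, ⟨h1, fun Q hQ => ⟨?_, ?_⟩⟩, hD, Disjoint.mono_left Finset.subset_union_left h3, h4⟩
  · have h5 := (h2 Q hQ).1
    have h6 : Q ≡ 1 [MOD W] := h5
    have h7 : (1 : ℕ) ≤ Q := (h1 Q hQ).1.one_lt.le
    have h8 := (Nat.modEq_iff_dvd' h7).1 h6.symm
    have h9 : ((W : ℕ) : ℤ) ∣ ((Q - 1 : ℕ) : ℤ) := Int.natCast_dvd_natCast.2 h8
    rwa [Nat.cast_sub h7, Nat.cast_one] at h9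
  · by_contra hcon
    exact Finset.disjoint_left.1 h3 (Finset.mem_union_right _ (Finset.mem_range.2 (by omega))) hQ

/-- **The levels.** -/
theorem levD (hM : S_MOMW) {𝒟 : Set ℕ} (hP : PRD 𝒟) {W : ℕ} (hW : OKW W) {M₀ : ℕ} (hM₀ : 0 < M₀) (N κ k : ℕ) {δ ε : ℝ}
    (hδ : 0 < δ) (hδ1 : δ ≤ 1 / 4) (hε : 0 < ε) (𝒬₀ : Finset ℕ) :
    ∃ (𝒬 : ℕ → Finset ℕ) (m : ℕ → ℕ), (∀ i < k, (PrW W N (𝒬 i) ∧ ∀ Q ∈ 𝒬 i, Q ∈ 𝒟) ∧ Disjoint 𝒬₀ (𝒬 i) ∧ 1 ≤ m i) ∧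
      (∀ i < k, ∀ j < i, Disjoint (𝒬 j) (𝒬 i)) ∧ ∀ᶠ X : ℕ in atTop, ∀ i < k,
      ((FewA (𝒬 i) (m i) X).ncard : ℝ) ≤ ε * (X : ℝ) ^ 5 ∧
      (∀ Z ⊆ (range i).biUnion 𝒬, (UnbSet κ (M₀ * (∏ Q ∈ Z, Q) * X) (𝒬 i) δ (m i)).Finite) ∧
      (∑ Z ∈ ((range i).biUnion 𝒬).powerset,
        ((UnbSet κ (M₀ * (∏ Q ∈ Z, Q) * X) (𝒬 i) δ (m i)).ncard : ℝ)) ≤ ε * (X : ℝ) ^ 5 := by
  induction k with
  | zero =>
    refine ⟨fun _ => ∅, fun _ => 0, fun i hi => absurd hi (Nat.not_lt_zero _),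
      fun i hi => absurd hi (Nat.not_lt_zero _), Eventually.of_forall fun X i hi => absurd hi (Nat.not_lt_zero _)⟩
  | succ k ih =>
    obtain ⟨𝒬, m, h1, h2, h3⟩ := ih
    set V : Finset ℕ := (range k).biUnion 𝒬 with hVdef
    have hV : ∀ Q ∈ V, 0 < Q := by
      intro Q hQ
      obtain ⟨j, hj, hQj⟩ := Finset.mem_biUnion.1 hQ
      exact ((h1 j (mem_range.1 hj)).1.1.1 Q hQj).1.pos
    obtain ⟨Λ₀, hΛ⟩ := lev_step hM κ hδ hδ1 hε hM₀ V hV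
    obtain ⟨𝒬', hp, hpD, hd, hL⟩ := prD hP hW N (𝒬₀ ∪ V) Λ₀
    obtain ⟨m', hm', hev⟩ := hΛ 𝒬' hp.1 hL
    have eU : ∀ i ≤ k, (range i).biUnion (Function.update 𝒬 k 𝒬') = (range i).biUnion 𝒬 := by
      intro i hi
      refine Finset.biUnion_congr rfl fun j hj => ?_
      rw [mem_range] at hj
      rw [Function.update_of_ne (by omega)]
    refine ⟨Function.update 𝒬 k 𝒬', Function.update m k m', fun i hi => ?_, fun i hi j hj => ?_, ?_⟩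
    · rcases Nat.lt_succ_iff_lt_or_eq.1 hi with h | h
      · rw [Function.update_of_ne (by omega), Function.update_of_ne (by omega)]
        exact h1 i h
      · subst h
        rw [Function.update_self, Function.update_self]
        exact ⟨⟨hp, hpD⟩, Disjoint.mono_left Finset.subset_union_left hd, hm'⟩
    · rcases Nat.lt_succ_iff_lt_or_eq.1 hi with h | h
      · rw [Function.update_of_ne (by omega), Function.update_of_ne (by omega)]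
        exact h2 i h j hj
      · subst h
        rw [Function.update_self, Function.update_of_ne (by omega)]
        refine Disjoint.mono_left ?_ hd
        refine subset_trans ?_ Finset.subset_union_right
        exact Finset.subset_biUnion_of_mem 𝒬 (mem_range.2 hj)
    · filter_upwards [h3, hev] with X h4 h5 i hi
      rw [eU i (by omega)]
      rcases Nat.lt_succ_iff_lt_or_eq.1 hi with h | h
      · rw [Function.update_of_ne (by omega), Function.update_of_ne (by omega)]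
        exact h4 i h
      · subst h
        rw [Function.update_self, Function.update_self]
        exact h5

/-- **Almost all curves.** -/
theorem main3D {𝒟 : Set ℕ} (H : Pcs) (hPL : S_PLBB) (hMO : S_MOMW) (hPR : PRD 𝒟) (hTA : S_TAILB) (hDE : S_DEN)
    {ε : ℝ} (hε : 0 < ε) :
    ∃ R : ℕ, ∀ (k : ℕ) (δ : ℝ), 0 < δ → δ ≤ 1 / 4 → ∃ 𝒬 : ℕ → Finset ℕ, (∀ i < k + 1, Pr8 (𝒬 i) ∧ ∀ Q ∈ 𝒬 i, Q ∈ 𝒟) ∧
      (∀ i < k + 1, ∀ j < i, Disjoint (𝒬 j) (𝒬 i)) ∧ ∀ᶠ T : ℕ in atTop,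
      (({p : ℤ × ℤ | p ∈ AllT T ∧ ¬ (Rk R k δ 𝒬 p ∧ ∀ z : ℤ, z ^ 3 + p.1 * z + p.2 ≠ 0)}.ncard : ℕ) : ℝ) ≤
        ε * ((AllT T).ncard : ℝ) := by
  obtain ⟨ε₀, hε₀, hε₀'⟩ : ∃ ε₀ : ℝ, 0 < ε₀ ∧ 5 * ε₀ * 32 ≤ ε := ⟨ε / 160, by positivity, by linarith⟩
  obtain ⟨W, hW, hevT⟩ := hTA ε₀ hε₀
  obtain ⟨κ, M₀, N, hκ⟩ := exists_cst hPL hW
  obtain ⟨𝒬a, ma, hQa, -, heva⟩ := levD hMO hPR hW hκ.pos N κ 1 (δ := 1 / 8) (by norm_num)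
    (by norm_num) hε₀ ∅
  obtain ⟨⟨h8₀, -⟩, -, hm₀⟩ := hQa 0 one_pos
  refine ⟨(𝒬a 0).card, fun k δ hδ hδ1 => ?_⟩
  obtain ⟨𝒬, m, h𝒬D, hdis, hev⟩ := levD hMO hPR hW hκ.pos N κ (k + 1) hδ hδ1
    (show 0 < ε₀ / (k + 1) by positivity) (𝒬a 0)
  have h𝒬 : ∀ i < k + 1, PrW W N (𝒬 i) ∧ Disjoint (𝒬a 0) (𝒬 i) ∧ 1 ≤ m i := fun i hi =>
    ⟨(h𝒬D i hi).1.1, (h𝒬D i hi).2⟩
  refine ⟨𝒬, fun i hi => ⟨(h𝒬 i hi).1.1, (h𝒬D i hi).1.2⟩, hdis, ?_⟩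
  have htend : Tendsto (fun T : ℕ => ⌈(T : ℝ) ^ (1 / 6 : ℝ)⌉₊) atTop atTop :=
    tendsto_nat_ceil_atTop.comp ((tendsto_rpow_atTop (by norm_num)).comp tendsto_natCast_atTop_atTop)
  filter_upwards [htend.eventually heva, htend.eventually hev, htend.eventually hevT, hDE,
    eventually_ge_atTop 1] with T hT0 hT1 hTt hT2 hT3
  obtain ⟨X, hX⟩ : ∃ X : ℕ, X = ⌈(T : ℝ) ^ (1 / 6 : ℝ)⌉₊ := ⟨_, rfl⟩
  rw [← hX] at hT0 hT1 hTt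
  obtain ⟨hfa, hua, hub⟩ := hT0 0 one_pos
  rw [Finset.range_zero, Finset.biUnion_empty] at hua hub
  rw [Finset.powerset_empty, Finset.sum_singleton] at hub
  have hXle : (T : ℝ) ^ (1 / 6 : ℝ) ≤ X := by rw [hX]; exact Nat.le_ceil _
  have hT3' : (1 : ℝ) ≤ T := by exact_mod_cast hT3
  have hone : (1 : ℝ) ≤ (T : ℝ) ^ (1 / 6 : ℝ) := Real.one_le_rpow hT3' (by norm_num)
  have hXup : (X : ℝ) ≤ 2 * (T : ℝ) ^ (1 / 6 : ℝ) := by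
    have := Nat.ceil_lt_add_one (show (0 : ℝ) ≤ (T : ℝ) ^ (1 / 6 : ℝ) by positivity)
    rw [← hX] at this
    linarith
  have hX5 : (X : ℝ) ^ 5 ≤ 32 * (T : ℝ) ^ (5 / 6 : ℝ) := by
    have h1 : ((T : ℝ) ^ (1 / 6 : ℝ)) ^ 5 = (T : ℝ) ^ (5 / 6 : ℝ) := by
      rw [← Real.rpow_natCast, ← Real.rpow_mul (Nat.cast_nonneg _)]
      norm_num
    calc (X : ℝ) ^ 5 ≤ (2 * (T : ℝ) ^ (1 / 6 : ℝ)) ^ 5 := pow_le_pow_left₀ (Nat.cast_nonneg _) hXup 5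
      _ = 32 * (T : ℝ) ^ (5 / 6 : ℝ) := by rw [mul_pow, h1]; norm_num
  have hbx : ∀ p ∈ AllT T, p ∈ BxA X := fun p hp => box_of hp.2 hXle
  -- the bad pairs
  obtain ⟨G, hG⟩ : ∃ G : ℕ → Finset ℕ → Finset (ℤ × ℤ), ∀ i Z, G i Z = (BxA X).filter fun p =>
      tw M₀ Z p ∈ UnbSet κ (M₀ * (∏ Q ∈ Z, Q) * X) (𝒬 i) δ (m i) := ⟨_, fun _ _ => rfl⟩
  have hsub : {p : ℤ × ℤ | p ∈ AllT T ∧
        ¬ (Rk (𝒬a 0).card k δ 𝒬 p ∧ ∀ z : ℤ, z ^ 3 + p.1 * z + p.2 ≠ 0)} ⊆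
      (((BxA X).filter (fun p => Pool.Agent.N922.PQ.dsc p.1 p.2 ≠ 0 ∧ ¬ GB W p.1 p.2) ∪
        ((BxA X).filter (fun p => p ∈ FewA (𝒬a 0) (ma 0) X) ∪
        ((BxA X).filter (fun p => tw M₀ ∅ p ∈ UnbSet κ (M₀ * (∏ Q ∈ (∅ : Finset ℕ), Q) * X) (𝒬a 0)
          (1 / 8) (ma 0)) ∪
        ((range (k + 1)).biUnion (fun i => (BxA X).filter fun p => p ∈ FewA (𝒬 i) (m i) X) ∪
        (range (k + 1)).biUnion fun i => ((range i).biUnion 𝒬).powerset.biUnion fun Z => G i Z))) :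
        Finset (ℤ × ℤ)) : Set (ℤ × ℤ)) := by
    rintro p ⟨hp, hn⟩
    by_contra hcon
    rw [Finset.mem_coe] at hcon
    simp only [Finset.mem_union, Finset.mem_biUnion, not_or, not_exists, not_and,
      Finset.mem_filter, Finset.mem_powerset, Finset.mem_range] at hcon
    obtain ⟨h0, h1, h2, h3, h4⟩ := hcon
    have hpX := hbx p hp
    have hGW : GB W p.1 p.2 := not_not.1 (h0 hpX hp.1)
    refine hn ⟨rk_of H hW hκ hδ hGW hpX h8₀ hm₀ (h1 hpX) (fun Z hZ => ?_) h𝒬 hdis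
      (fun i hi => h3 i hi hpX) fun i hi Z hZ hcon => h4 i hi Z hZ ?_, hGW.irr⟩
    · rw [Finset.subset_empty.1 hZ]
      exact h2 hpX
    · rw [hG]
      exact Finset.mem_filter.2 ⟨hpX, hcon⟩
  have hc0 := Set.ncard_le_ncard hsub (Finset.finite_toSet _)
  rw [Set.ncard_coe_finset] at hc0
  have hc1 := hc0.trans ((Finset.card_union_le _ _).trans (Nat.add_le_add_left
    ((Finset.card_union_le _ _).trans (Nat.add_le_add_left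
    ((Finset.card_union_le _ _).trans
      (Nat.add_le_add_left ((Finset.card_union_le _ _).trans (Nat.add_le_add Finset.card_biUnion_le
      (Finset.card_biUnion_le.trans (Finset.sum_le_sum fun i _ => Finset.card_biUnion_le)))) _)) _)) _))
  have hFfin : ∀ (𝒬' : Finset ℕ) (m' : ℕ), (FewA 𝒬' m' X).Finite := fun 𝒬' m' =>
    (Finset.finite_toSet (BxA X)).subset fun p hp => Finset.mem_coe.2 hp.1
  have hA1 : ∀ (𝒬' : Finset ℕ) (m' : ℕ), ((BxA X).filter fun p => p ∈ FewA 𝒬' m' X).card ≤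
      (FewA 𝒬' m' X).ncard := by
    intro 𝒬' m'
    rw [← Set.ncard_coe_finset]
    refine Set.ncard_le_ncard (fun p hp => ?_) (hFfin 𝒬' m')
    exact (Finset.mem_filter.1 (Finset.mem_coe.1 hp)).2
  have hA3' : ∀ (𝒬' : Finset ℕ) (δ' : ℝ) (m' : ℕ) (Z : Finset ℕ), (∀ Q ∈ Z, 0 < Q) →
      (UnbSet κ (M₀ * (∏ Q ∈ Z, Q) * X) 𝒬' δ' m').Finite →
      ((BxA X).filter fun p => tw M₀ Z p ∈ UnbSet κ (M₀ * (∏ Q ∈ Z, Q) * X) 𝒬' δ' m').card ≤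
      (UnbSet κ (M₀ * (∏ Q ∈ Z, Q) * X) 𝒬' δ' m').ncard := by
    intro 𝒬' δ' m' Z hZ hfin
    rw [Set.ncard_eq_toFinset_card _ hfin]
    refine Finset.card_le_card_of_injOn (tw M₀ Z) ?_ ((tw_inj hκ.pos hZ).injOn)
    intro p hp
    exact hfin.mem_toFinset.2 (Finset.mem_filter.1 hp).2
  have hA3 : ∀ i < k + 1, ∀ Z ∈ ((range i).biUnion 𝒬).powerset, (G i Z).card ≤
      (UnbSet κ (M₀ * (∏ Q ∈ Z, Q) * X) (𝒬 i) δ (m i)).ncard := by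
    intro i hi Z hZ
    have hZ' := Finset.mem_powerset.1 hZ
    rw [hG]
    refine hA3' _ _ _ _ (fun Q hQ => ?_) ((hT1 i hi).2.1 Z hZ')
    obtain ⟨j, hj, h⟩ := Finset.mem_biUnion.1 (hZ' hQ)
    exact ((h𝒬 j ((Finset.mem_range.1 hj).trans hi)).1.1 Q h).1.pos
  have hc2 : (({p : ℤ × ℤ | p ∈ AllT T ∧
        ¬ (Rk (𝒬a 0).card k δ 𝒬 p ∧ ∀ z : ℤ, z ^ 3 + p.1 * z + p.2 ≠ 0)}.ncard : ℕ) : ℝ) ≤
      ε₀ * (X : ℝ) ^ 5 + (ε₀ * (X : ℝ) ^ 5 + (ε₀ * (X : ℝ) ^ 5 +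
        (∑ _i ∈ range (k + 1), ε₀ / (k + 1) * (X : ℝ) ^ 5 +
        ∑ _i ∈ range (k + 1), ε₀ / (k + 1) * (X : ℝ) ^ 5))) := by
    have hc3 : (({p : ℤ × ℤ | p ∈ AllT T ∧
        ¬ (Rk (𝒬a 0).card k δ 𝒬 p ∧ ∀ z : ℤ, z ^ 3 + p.1 * z + p.2 ≠ 0)}.ncard : ℕ) : ℝ) ≤
        (((BxA X).filter (fun p => Pool.Agent.N922.PQ.dsc p.1 p.2 ≠ 0 ∧ ¬ GB W p.1 p.2)).card : ℝ) +
        ((((BxA X).filter (fun p => p ∈ FewA (𝒬a 0) (ma 0) X)).card : ℝ) +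
        ((((BxA X).filter (fun p => tw M₀ ∅ p ∈ UnbSet κ (M₀ * (∏ Q ∈ (∅ : Finset ℕ), Q) * X) (𝒬a 0)
          (1 / 8) (ma 0))).card : ℝ) +
        (∑ i ∈ range (k + 1), (((BxA X).filter fun p => p ∈ FewA (𝒬 i) (m i) X).card : ℝ) +
        ∑ i ∈ range (k + 1), ∑ Z ∈ ((range i).biUnion 𝒬).powerset, ((G i Z).card : ℝ)))) := by
      exact_mod_cast hc1
    refine hc3.trans (add_le_add ?_ (add_le_add ?_ (add_le_add ?_ (add_le_add ?_ ?_))))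
    · exact hTt
    · exact le_trans (by exact_mod_cast hA1 _ _) hfa
    · refine le_trans ?_ hub
      exact_mod_cast hA3' _ _ _ _ (fun Q hQ => absurd hQ (Finset.notMem_empty _))
        (hua ∅ subset_rfl)
    · refine Finset.sum_le_sum fun i hi => ?_
      exact le_trans (by exact_mod_cast hA1 _ _) (hT1 i (Finset.mem_range.1 hi)).1
    · refine Finset.sum_le_sum fun i hi => ?_
      refine le_trans (Finset.sum_le_sum fun Z hZ => ?_) (hT1 i (Finset.mem_range.1 hi)).2.2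
      exact_mod_cast hA3 i (Finset.mem_range.1 hi) Z hZ
  have e1 : ∑ _i ∈ range (k + 1), ε₀ / (k + 1) * (X : ℝ) ^ 5 = ε₀ * (X : ℝ) ^ 5 := by
    rw [Finset.sum_const, Finset.card_range, nsmul_eq_mul]
    push_cast
    field_simp
  rw [e1] at hc2
  calc (({p : ℤ × ℤ | p ∈ AllT T ∧
        ¬ (Rk (𝒬a 0).card k δ 𝒬 p ∧ ∀ z : ℤ, z ^ 3 + p.1 * z + p.2 ≠ 0)}.ncard : ℕ) : ℝ)
      ≤ 5 * ε₀ * (X : ℝ) ^ 5 := by linarith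
    _ ≤ 5 * ε₀ * (32 * (T : ℝ) ^ (5 / 6 : ℝ)) := mul_le_mul_of_nonneg_left hX5 (by positivity)
    _ = 5 * ε₀ * 32 * (T : ℝ) ^ (5 / 6 : ℝ) := by ring
    _ ≤ ε * ((AllT T).ncard : ℝ) := by
        refine mul_le_mul hε₀' (hT2.2.trans ?_) (by positivity) hε.le
        refine Nat.cast_le.2 (Set.ncard_le_ncard (fun p hp => ⟨hp.1.ne', hp.2⟩) ?_)
        exact (fin_hgt T).subset fun P hP => hP.2

/-- **Almost all curves, with the parity.** -/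
theorem main4D {𝒟 : Set ℕ} (H : Pcs) (hPL : S_PLBB) (hMO : S_MOMW) (hPR : PRD 𝒟) (hTA : S_TAILB) (hDE : S_DEN)
    (hTV : S_TV2) {ε : ℝ} (hε : 0 < ε) :
    ∃ (k : ℕ) (𝒬 : ℕ → Finset ℕ), (∀ i < k + 1, Pr8 (𝒬 i) ∧ ∀ Q ∈ 𝒬 i, Q ∈ 𝒟) ∧
      (∀ i < k + 1, ∀ j < i, Disjoint (𝒬 j) (𝒬 i)) ∧ ∀ᶠ T : ℕ in atTop,
      (({p : ℤ × ℤ | p ∈ AllT T ∧ ¬ (NiceP k 𝒬 ε p ∧ ∀ z : ℤ, z ^ 3 + p.1 * z + p.2 ≠ 0)}.ncard : ℕ) : ℝ) ≤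
        ε * ((AllT T).ncard : ℝ) := by
  obtain ⟨R, h⟩ := main3D H hPL hMO hPR hTA hDE hε
  obtain ⟨k, δ, hδ, hδ1, hTVk⟩ := hTV (ε / 2) (half_pos hε) R
  obtain ⟨𝒬, h8, hdis, hev⟩ := h k δ hδ hδ1
  refine ⟨k, 𝒬, h8, hdis, ?_⟩
  filter_upwards [hev] with T hT
  refine le_trans ?_ hT
  have hfin : {p : ℤ × ℤ | p ∈ AllT T ∧
      ¬ (Rk R k δ 𝒬 p ∧ ∀ z : ℤ, z ^ 3 + p.1 * z + p.2 ≠ 0)}.Finite :=
    (fin_hgt T).subset fun P hP => hP.1.2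
  exact Nat.cast_le.2 (Set.ncard_le_ncard
    (fun p hp => ⟨hp.1, fun hn => hp.2 ⟨niceP_of hTVk hn.1, hn.2⟩⟩) hfin)

/-- **Almost all elliptic curves over `ℚ`**, the levels in a given set of primes. -/
theorem finD {𝒟 : Set ℕ} (hD : PRD 𝒟) {ε : ℝ} (hε : 0 < ε) :
    ∃ (k : ℕ) (𝒬 : ℕ → Finset ℕ), (∀ i < k + 1, Pr8 (𝒬 i) ∧ ∀ Q ∈ 𝒬 i, Q ∈ 𝒟) ∧
      (∀ i < k + 1, ∀ j < i, Disjoint (𝒬 j) (𝒬 i)) ∧ ∀ᶠ T : ℕ in atTop,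
      (({p : ℤ × ℤ | p ∈ AllT T ∧ ¬ (NiceP k 𝒬 ε p ∧ ∀ z : ℤ, z ^ 3 + p.1 * z + p.2 ≠ 0)}.ncard : ℕ) : ℝ) ≤
        ε * ((AllT T).ncard : ℝ) :=
  main4D Pool.Agent.H29B.pcs Pool.Agent.H29B.plbb Pool.Agent.H29A.t_MOMW hD Pool.Agent.H29B.t_TAILB
    Pool.Agent.H29A.t_DEN tv2 hε

end Pool.Agent.H29C
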